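import Mathlib

/-!
# Closures of ranges of divisor functions: the tools

`sig r n = ∑_{d ∣ n} d ^ (-r)`.  The closed range is a union of scaled copies of the closures of the
values at integers without small prime factors; lists of intervals with integer endpoints (over a
common denominator) give upper and lower bounds for its number of connected components.
-/

set_option autoImplicit false

namespace Pool.Agent.V1114.DC

open Finset

/-- the sum of the `(-r)`-th powers of the divisors of `n` -/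
noncomputable def sig (r : ℝ) (n : ℕ) : ℝ := ∑ d ∈ n.divisors, (d : ℝ) ^ (-r)

theorem sig_one (r : ℝ) : sig r 1 = 1 := by simp [sig]

theorem sig_mul (r : ℝ) {m n : ℕ} (h : m.Coprime n) : sig r (m * n) = sig r m * sig r n := by
  unfold sig
  rw [Nat.divisors_mul, Finset.mul_def, Finset.sum_image h.mul_injOn_divisors,
    Finset.sum_product, Finset.sum_mul_sum]
  refine Finset.sum_congr rfl fun a _ => Finset.sum_congr rfl fun b _ => ?_
  push_cast
  exact Real.mul_rpow (by positivity) (by positivity)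

/-- partial geometric sums -/
noncomputable def ff (x : ℝ) (j : ℕ) : ℝ := ∑ i ∈ range (j + 1), x ^ i

theorem sig_prime_pow (r : ℝ) {p : ℕ} (hp : p.Prime) (j : ℕ) :
    sig r (p ^ j) = ff ((p : ℝ) ^ (-r)) j := by
  unfold sig ff
  rw [Nat.sum_divisors_prime_pow hp]
  refine sum_congr rfl fun i _ => ?_
  push_cast
  rw [← Real.rpow_natCast, ← Real.rpow_natCast, ← Real.rpow_mul (by positivity),
    ← Real.rpow_mul (by positivity), mul_comm]

/-- the values of `sig r` at the positive integers without prime factors in the list `F` -/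
def B (r : ℝ) (F : List ℕ) : Set ℝ :=
  {y | ∃ n : ℕ, 0 < n ∧ (∀ p ∈ F, ¬ p ∣ n) ∧ y = sig r n}

theorem B_step (r : ℝ) {p : ℕ} (hp : p.Prime) (F : List ℕ) (hF : ∀ q ∈ F, q.Prime)
    (hpF : p ∉ F) (y : ℝ) :
    y ∈ B r F ↔ ∃ j : ℕ, ∃ z ∈ B r (p :: F), y = ff ((p : ℝ) ^ (-r)) j * z := by
  constructor
  · rintro ⟨n, hn, hd, rfl⟩
    obtain ⟨j, m, hm, rfl⟩ := Nat.exists_eq_pow_mul_and_not_dvd hn.ne' p hp.ne_one
    refine ⟨j, sig r m, ⟨m, Nat.pos_of_ne_zero (fun h => by simp [h] at hn), ?_, rfl⟩, ?_⟩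
    · intro q hq
      rcases List.mem_cons.1 hq with rfl | hq
      · exact hm
      · exact fun h => hd q hq (dvd_mul_of_dvd_right h _)
    · rw [sig_mul r (Nat.Coprime.pow_left j ((Nat.Prime.coprime_iff_not_dvd hp).2 hm)),
        sig_prime_pow r hp]
  · rintro ⟨j, z, ⟨m, hm0, hm, rfl⟩, rfl⟩
    have hpm : ¬ p ∣ m := hm p (by simp)
    refine ⟨p ^ j * m, Nat.mul_pos (pow_pos hp.pos j) hm0, ?_, ?_⟩
    · intro q hq h
      rcases (hF q hq).dvd_mul.1 h with h | h
      · have := (Nat.prime_dvd_prime_iff_eq (hF q hq) hp).1 ((hF q hq).dvd_of_dvd_pow h)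
        exact hpF (this ▸ hq)
      · exact hm q (by simp [hq]) h
    · rw [sig_mul r (Nat.Coprime.pow_left j ((Nat.Prime.coprime_iff_not_dvd hp).2 hpm)),
        sig_prime_pow r hp]

/-! ### The partial sums -/

theorem ff_zero (x : ℝ) : ff x 0 = 1 := by simp [ff]

theorem ff_succ (x : ℝ) (j : ℕ) : ff x (j + 1) = 1 + x * ff x j := by
  unfold ff
  rw [Finset.sum_range_succ' _ (j + 1), Finset.mul_sum]
  simp only [pow_succ, pow_zero]
  rw [add_comm]
  congr 1
  exact Finset.sum_congr rfl fun i _ => by ring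

theorem ff_succ' (x : ℝ) (j : ℕ) : ff x (j + 1) = ff x j + x ^ (j + 1) := by
  unfold ff
  rw [Finset.sum_range_succ _ (j + 1)]

theorem one_le_ff {x : ℝ} (hx : 0 ≤ x) (j : ℕ) : 1 ≤ ff x j := by
  induction j with
  | zero => rw [ff_zero]
  | succ j ih =>
    rw [ff_succ]
    nlinarith

theorem ff_mono {x : ℝ} (hx : 0 ≤ x) : Monotone (ff x) := by
  refine monotone_nat_of_le_succ fun j => ?_
  rw [ff_succ']
  have := pow_nonneg hx (j + 1)
  linarith

theorem ff_eq {x : ℝ} (hx : x < 1) (j : ℕ) : ff x j = (1 - x ^ (j + 1)) / (1 - x) := by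
  have h : (1 - x) ≠ 0 := by linarith
  rw [eq_div_iff h]
  have := geom_sum_mul x (j + 1)
  unfold ff
  linarith

theorem ff_lt {x : ℝ} (hx0 : 0 < x) (hx : x < 1) (j : ℕ) : ff x j < 1 / (1 - x) := by
  rw [ff_eq hx]
  have h : 0 < 1 - x := by linarith
  have := pow_pos hx0 (j + 1)
  gcongr
  linarith

theorem ff_tendsto {x : ℝ} (hx0 : 0 ≤ x) (hx : x < 1) :
    Filter.Tendsto (ff x) Filter.atTop (nhds (1 / (1 - x))) := by
  have h1 := tendsto_pow_atTop_nhds_zero_of_lt_one hx0 hx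
  have h2 := (Filter.tendsto_add_atTop_iff_nat 1).2 h1
  have h3 : Filter.Tendsto (fun j : ℕ => (1 - x ^ (j + 1)) / (1 - x)) Filter.atTop
      (nhds ((1 - 0) / (1 - x))) := (h2.const_sub 1).div_const _
  rw [sub_zero] at h3
  exact h3.congr fun j => (ff_eq hx j).symm

/-- the quotients of consecutive partial sums decrease -/
theorem ff_ratio {x : ℝ} (hx : 0 ≤ x) (J : ℕ) : ∀ j, J ≤ j →
    ff x (j + 1) * ff x J ≤ ff x (J + 1) * ff x j := by
  intro j hj
  -- `ff (j+1) = 1 + x ff j`, so this is `ff J ≤ ff j`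
  rw [ff_succ, ff_succ]
  have := ff_mono hx hj
  nlinarith

/-! ### Interval lists -/

/-- insert an interval into a list of intervals, merging it with all those it meets -/
def ins : List (ℕ × ℕ) → ℕ × ℕ → List (ℕ × ℕ)
  | [], I => [I]
  | K :: L, I =>
    if I.2 < K.1 then I :: K :: L
    else if K.2 < I.1 then K :: ins L I
    else ins L (min I.1 K.1, max I.2 K.2)

theorem ins_cover (t : ℝ) : ∀ (L : List (ℕ × ℕ)) (I : ℕ × ℕ),
    (∃ K ∈ I :: L, (K.1 : ℝ) ≤ t ∧ t ≤ K.2) → ∃ K ∈ ins L I, (K.1 : ℝ) ≤ t ∧ t ≤ K.2 := by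
  intro L
  induction L with
  | nil => intro I h; simpa [ins] using h
  | cons K L ih =>
    intro I h
    rw [ins]
    split_ifs with h1 h2
    · exact h
    · obtain ⟨M, hM, hM2⟩ := h
      rcases List.mem_cons.1 hM with rfl | hM
      · obtain ⟨M', hM', h'⟩ := ih M ⟨M, by simp, hM2⟩
        exact ⟨M', List.mem_cons_of_mem _ hM', h'⟩
      · rcases List.mem_cons.1 hM with rfl | hM
        · exact ⟨M, by simp, hM2⟩
        · obtain ⟨M', hM', h'⟩ := ih I ⟨M, by simp [hM], hM2⟩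
          exact ⟨M', List.mem_cons_of_mem _ hM', h'⟩
    · obtain ⟨M, hM, hM2⟩ := h
      apply ih
      rcases List.mem_cons.1 hM with rfl | hM
      · refine ⟨_, List.mem_cons_self, ?_, ?_⟩
        · refine le_trans ?_ hM2.1
          exact_mod_cast min_le_left _ _
        · refine le_trans hM2.2 ?_
          exact_mod_cast le_max_left _ _
      · rcases List.mem_cons.1 hM with rfl | hM
        · refine ⟨_, List.mem_cons_self, ?_, ?_⟩
          · refine le_trans ?_ hM2.1
            exact_mod_cast min_le_right _ _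
          · refine le_trans hM2.2 ?_
            exact_mod_cast le_max_right _ _
        · exact ⟨M, List.mem_cons_of_mem _ hM, hM2⟩

theorem ins_hit : ∀ (L : List (ℕ × ℕ)) (I K : ℕ × ℕ), K ∈ ins L I →
    ∃ M ∈ I :: L, K.1 ≤ M.1 ∧ M.2 ≤ K.2 := by
  intro L
  induction L with
  | nil =>
    intro I K h
    rw [ins, List.mem_singleton] at h
    exact ⟨I, by simp, by rw [h], by rw [h]⟩
  | cons K' L ih =>
    intro I K h
    rw [ins] at h
    split_ifs at h with h1 h2
    · exact ⟨K, h, le_rfl, le_rfl⟩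
    · rcases List.mem_cons.1 h with rfl | h
      · exact ⟨K, by simp, le_rfl, le_rfl⟩
      · obtain ⟨M, hM, h3⟩ := ih I K h
        rcases List.mem_cons.1 hM with rfl | hM
        · exact ⟨M, by simp, h3⟩
        · exact ⟨M, by simp [hM], h3⟩
    · obtain ⟨M, hM, h3⟩ := ih _ K h
      rcases List.mem_cons.1 hM with rfl | hM
      · exact ⟨I, by simp, h3.1.trans (min_le_left _ _), (le_max_left _ _).trans h3.2⟩
      · exact ⟨M, by simp [hM], h3⟩

/-- merge all intervals of a list -/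
def norm (R : List (ℕ × ℕ)) : List (ℕ × ℕ) := R.foldl ins []

theorem foldl_cover (t : ℝ) : ∀ (R L : List (ℕ × ℕ)),
    ((∃ K ∈ R, (K.1 : ℝ) ≤ t ∧ t ≤ K.2) ∨ (∃ K ∈ L, (K.1 : ℝ) ≤ t ∧ t ≤ K.2)) →
      ∃ K ∈ R.foldl ins L, (K.1 : ℝ) ≤ t ∧ t ≤ K.2 := by
  intro R
  induction R with
  | nil => intro L h; simpa using h
  | cons I R ih =>
    intro L h
    rw [List.foldl_cons]
    apply ih
    rcases h with ⟨K, hK, h1⟩ | ⟨K, hK, h1⟩
    · rcases List.mem_cons.1 hK with rfl | hK
      · exact Or.inr (ins_cover t L K ⟨K, by simp, h1⟩)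
      · exact Or.inl ⟨K, hK, h1⟩
    · exact Or.inr (ins_cover t L I ⟨K, by simp [hK], h1⟩)

theorem foldl_hit : ∀ (R L : List (ℕ × ℕ)) (K : ℕ × ℕ), K ∈ R.foldl ins L →
    ∃ M, (M ∈ R ∨ M ∈ L) ∧ K.1 ≤ M.1 ∧ M.2 ≤ K.2 := by
  intro R
  induction R with
  | nil => intro L K h; exact ⟨K, Or.inr (by simpa using h), le_rfl, le_rfl⟩
  | cons I R ih =>
    intro L K h
    rw [List.foldl_cons] at h
    obtain ⟨M, hM, h1⟩ := ih _ K h
    rcases hM with hM | hM
    · exact ⟨M, Or.inl (by simp [hM]), h1⟩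
    · obtain ⟨M', hM', h2⟩ := ins_hit _ _ _ hM
      rcases List.mem_cons.1 hM' with rfl | hM'
      · exact ⟨M', Or.inl (by simp), h1.1.trans h2.1, h2.2.trans h1.2⟩
      · exact ⟨M', Or.inr hM', h1.1.trans h2.1, h2.2.trans h1.2⟩

/-- the intervals of the list `L` (endpoints divided by `D`) cover `S`, and each meets `S` -/
def Out (D : ℝ) (S : Set ℝ) (L : List (ℕ × ℕ)) : Prop :=
  (∀ y ∈ S, ∃ I ∈ L, (I.1 : ℝ) ≤ y * D ∧ y * D ≤ I.2) ∧
    ∀ I ∈ L, ∃ y ∈ S, (I.1 : ℝ) ≤ y * D ∧ y * D ≤ I.2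

theorem Out.norm {D : ℝ} {S : Set ℝ} {R : List (ℕ × ℕ)} (h : Out D S R) :
    Out D S (DC.norm R) := by
  refine ⟨fun y hy => foldl_cover _ R [] (Or.inl (h.1 y hy)), fun I hI => ?_⟩
  obtain ⟨M, hM, h1, h2⟩ := foldl_hit R [] I hI
  rcases hM with hM | hM
  · obtain ⟨y, hy, h3, h4⟩ := h.2 M hM
    exact ⟨y, hy, le_trans (by exact_mod_cast h1) h3, h4.trans (by exact_mod_cast h2)⟩
  · simp at hM

/-- `c` is a closed connected subset of `X` which contains the interval `I` (over `D`) -/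
def Good (D : ℝ) (X c : Set ℝ) (I : ℕ × ℕ) : Prop :=
  IsClosed c ∧ IsPreconnected c ∧ c ⊆ X ∧ I.1 ≤ I.2 ∧
    ∀ y : ℝ, (I.1 : ℝ) ≤ y * D → y * D ≤ I.2 → y ∈ c

/-- `S` is covered by closed connected subsets of its closure that contain the intervals of `L` -/
def Inn (D : ℝ) (S : Set ℝ) (L : List (ℕ × ℕ)) : Prop :=
  ∃ C : List (Set ℝ), List.Forall₂ (Good D (closure S)) C L ∧ ∀ y ∈ S, ∃ c ∈ C, y ∈ c

theorem ins_good {D : ℝ} (hD : 0 < D) {X : Set ℝ} : ∀ (L : List (ℕ × ℕ)) (C : List (Set ℝ))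
    (I : ℕ × ℕ) (c : Set ℝ), Good D X c I → List.Forall₂ (Good D X) C L →
    ∃ C', List.Forall₂ (Good D X) C' (ins L I) ∧
      ∀ y, (y ∈ c ∨ ∃ c' ∈ C, y ∈ c') → ∃ c' ∈ C', y ∈ c' := by
  intro L
  induction L with
  | nil =>
    intro C I c hc hC
    rw [List.forall₂_nil_right_iff] at hC
    subst hC
    refine ⟨[c], by rw [ins]; exact List.Forall₂.cons hc List.Forall₂.nil, ?_⟩
    intro y hy
    rcases hy with hy | ⟨c', hc', -⟩
    · exact ⟨c, by simp, hy⟩
    · simp at hc'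
  | cons K L ih =>
    intro C I c hc hC
    obtain ⟨k, C, hk, hC0, rfl⟩ := List.forall₂_cons_right_iff.1 hC
    clear hC
    rw [ins]
    split_ifs with h1 h2
    · refine ⟨c :: k :: C, List.Forall₂.cons hc (List.Forall₂.cons hk hC0), ?_⟩
      intro y hy
      rcases hy with hy | ⟨c', hc', hy⟩
      · exact ⟨c, by simp, hy⟩
      · exact ⟨c', by simp only [List.mem_cons] at hc' ⊢; tauto, hy⟩
    · obtain ⟨C', hC', hcov⟩ := ih C I c hc hC0
      refine ⟨k :: C', List.Forall₂.cons hk hC', ?_⟩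
      intro y hy
      rcases hy with hy | ⟨c', hc', hy⟩
      · obtain ⟨c'', h3, h4⟩ := hcov y (Or.inl hy)
        exact ⟨c'', by simp [h3], h4⟩
      · rcases List.mem_cons.1 hc' with rfl | hc'
        · exact ⟨c', by simp, hy⟩
        · obtain ⟨c'', h3, h4⟩ := hcov y (Or.inr ⟨c', hc', hy⟩)
          exact ⟨c'', by simp [h3], h4⟩
    · have hck : Good D X (c ∪ k) (min I.1 K.1, max I.2 K.2) := by
        obtain ⟨a1, a2, a3, a4, a5⟩ := hc
        obtain ⟨b1, b2, b3, b4, b5⟩ := hk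
        have hI1 : (I.1 : ℝ) ≤ I.2 := by exact_mod_cast a4
        have hK1 : (K.1 : ℝ) ≤ K.2 := by exact_mod_cast b4
        have h1' : (K.1 : ℝ) ≤ I.2 := by exact_mod_cast not_lt.1 h1
        have h2' : (I.1 : ℝ) ≤ K.2 := by exact_mod_cast not_lt.1 h2
        -- a common point
        have hcom : ∃ y, y ∈ c ∧ y ∈ k := by
          refine ⟨max (I.1 : ℝ) K.1 / D, a5 _ ?_ ?_, b5 _ ?_ ?_⟩ <;>
            rw [div_mul_cancel₀ _ hD.ne']
          · exact le_max_left _ _
          · exact max_le hI1 h1'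
          · exact le_max_right _ _
          · exact max_le h2' hK1
        obtain ⟨y0, hy0, hy0'⟩ := hcom
        have hcon : IsPreconnected (c ∪ k) := IsPreconnected.union y0 hy0 hy0' a2 b2
        refine ⟨a1.union b1, hcon, Set.union_subset a3 b3, ?_, ?_⟩
        · exact (min_le_left _ _).trans (a4.trans (le_max_left _ _))
        · intro y hy1 hy2
          have hoc := hcon.ordConnected
          have hl : ∃ z ∈ c ∪ k, z ≤ y := by
            rcases le_total I.1 K.1 with h | h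
            · refine ⟨(I.1 : ℝ) / D, Or.inl (a5 _ ?_ ?_), ?_⟩
              · rw [div_mul_cancel₀ _ hD.ne']
              · rw [div_mul_cancel₀ _ hD.ne']; exact hI1
              · rw [div_le_iff₀ hD]
                simpa [min_eq_left h] using hy1
            · refine ⟨(K.1 : ℝ) / D, Or.inr (b5 _ ?_ ?_), ?_⟩
              · rw [div_mul_cancel₀ _ hD.ne']
              · rw [div_mul_cancel₀ _ hD.ne']; exact hK1
              · rw [div_le_iff₀ hD]
                simpa [min_eq_right h] using hy1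
          have hu : ∃ z ∈ c ∪ k, y ≤ z := by
            rcases le_total I.2 K.2 with h | h
            · refine ⟨(K.2 : ℝ) / D, Or.inr (b5 _ ?_ ?_), ?_⟩
              · rw [div_mul_cancel₀ _ hD.ne']; exact hK1
              · rw [div_mul_cancel₀ _ hD.ne']
              · rw [le_div_iff₀ hD]
                simpa [max_eq_right h] using hy2
            · refine ⟨(I.2 : ℝ) / D, Or.inl (a5 _ ?_ ?_), ?_⟩
              · rw [div_mul_cancel₀ _ hD.ne']; exact hI1
              · rw [div_mul_cancel₀ _ hD.ne']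
              · rw [le_div_iff₀ hD]
                simpa [max_eq_left h] using hy2
          obtain ⟨z1, hz1, hz1'⟩ := hl
          obtain ⟨z2, hz2, hz2'⟩ := hu
          exact hoc.out hz1 hz2 ⟨hz1', hz2'⟩
      obtain ⟨C', hC', hcov⟩ := ih C _ _ hck hC0
      refine ⟨C', hC', ?_⟩
      intro y hy
      apply hcov
      rcases hy with hy | ⟨c', hc', hy⟩
      · exact Or.inl (Or.inl hy)
      · rcases List.mem_cons.1 hc' with rfl | hc'
        · exact Or.inl (Or.inr hy)
        · exact Or.inr ⟨c', hc', hy⟩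

theorem foldl_good {D : ℝ} (hD : 0 < D) {X : Set ℝ} : ∀ (R : List (ℕ × ℕ)) (E : List (Set ℝ))
    (L : List (ℕ × ℕ)) (C : List (Set ℝ)), List.Forall₂ (Good D X) E R →
    List.Forall₂ (Good D X) C L →
    ∃ C', List.Forall₂ (Good D X) C' (R.foldl ins L) ∧
      ∀ y, ((∃ c ∈ E, y ∈ c) ∨ ∃ c' ∈ C, y ∈ c') → ∃ c' ∈ C', y ∈ c' := by
  intro R
  induction R with
  | nil =>
    intro E L C hE hC
    rw [List.forall₂_nil_right_iff] at hE
    subst hE
    exact ⟨C, hC, fun y hy => by simpa using hy⟩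
  | cons I R ih =>
    intro E L C hE hC
    obtain ⟨e, E, he, hE0, rfl⟩ := List.forall₂_cons_right_iff.1 hE
    clear hE
    rw [List.foldl_cons]
    obtain ⟨C1, hC1, hcov1⟩ := ins_good hD L C I e he hC
    obtain ⟨C2, hC2, hcov2⟩ := ih E _ C1 hE0 hC1
    refine ⟨C2, hC2, ?_⟩
    intro y hy
    apply hcov2
    rcases hy with ⟨c, hc, hy⟩ | hy
    · rcases List.mem_cons.1 hc with rfl | hc
      · exact Or.inr (hcov1 y (Or.inl hy))
      · exact Or.inl ⟨c, hc, hy⟩
    · exact Or.inr (hcov1 y (Or.inr hy))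

theorem Inn.norm {D : ℝ} (hD : 0 < D) {S : Set ℝ} {R : List (ℕ × ℕ)} (h : Inn D S R) :
    Inn D S (DC.norm R) := by
  obtain ⟨E, hE, hcov⟩ := h
  obtain ⟨C, hC, hcov2⟩ := foldl_good hD R E [] [] hE List.Forall₂.nil
  exact ⟨C, hC, fun y hy => hcov2 y (Or.inl (hcov y hy))⟩

end Pool.Agent.V1114.DC
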