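import Pool.Agent.V1114.DC.Num

/-!
# The certificates
-/

set_option autoImplicit false

namespace Pool.Agent.V1114.DC

/-- the common denominator -/
def DD : ℕ := 1000000000000000000

/-- exponent 56/13: `(p, lower bound, upper bound, number of separate powers)` -/
def es1 : List (ℕ × ℕ × ℕ × ℕ) := [(19, 3101151260611, 3101151260612, 1), (17, 5007311927662, 5007311927663, 1), (13, 15902843682756, 15902843682757, 1), (11, 32658838929442, 32658838929443, 1), (7, 228864099955771, 228864099955772, 1), (5, 975107033443567, 975107033443568, 1), (3, 8804575890992905, 8804575890992906, 2), (2, 50495817000910796, 50495817000910797, 4)]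

/-- exponent 56/13: lower bounds for the primes from 23 to 199 -/
def ql1 : List (ℕ × ℕ) := [(23, 1361744016362), (29, 501694562052), (31, 376420011371), (37, 175658632044), (41, 112881659754), (43, 91943387178), (47, 62678258278), (53, 37355116929), (59, 23535011312), (61, 20386769047), (67, 13609169373), (71, 10601044356), (73, 9405425520), (79, 6692777326), (83, 5410059775), (89, 4005231874), (97, 2764385989), (101, 2322738058), (103, 2134600321), (107, 1811503224), (109, 1672605603), (113, 1432088251), (127, 865886351), (131, 757611793), (137, 624691000), (139, 586883135), (149, 435093132), (151, 410806934), (157, 347328130), (163, 295512920), (167, 266208154), (173, 228657798), (179, 197425082), (181, 188198158), (191, 149282916), (193, 142732331), (197, 130660852), (199, 125097400)]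

/-- exponent 108/25: `(p, lower bound, upper bound, number of separate powers)` -/
def es2 : List (ℕ × ℕ × ℕ × ℕ) := [(19, 2990779835560, 2990779835561, 1), (17, 4835714582329, 4835714582330, 1), (13, 15408654525320, 15408654525321, 1), (11, 31709076964667, 31709076964668, 1), (7, 223447997598858, 223447997598859, 1), (5, 955981705391917, 955981705391918, 1), (3, 8686327102011885, 8686327102011886, 2), (2, 50066867349351379, 50066867349351380, 4)]

/-- exponent 108/25: lower bounds for the primes from 23 to 199 -/
def ql2 : List (ℕ × ℕ) := [(23, 1310194428824), (29, 481327471027), (31, 360842333481), (37, 168022929351), (41, 107838475327), (43, 87784183070), (47, 59777431948), (53, 35573634886), (59, 22383052311), (61, 19380952303), (67, 12922806823), (71, 10059211361), (73, 8921651285), (79, 6342361112), (83, 5123687585), (89, 3789964755), (97, 2613040301), (101, 2194480192), (103, 2016244470), (107, 1710259771), (109, 1578765141), (113, 1351142404), (127, 815770367), (131, 713490184), (137, 587986222), (139, 552301296), (149, 409105502),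 (151, 386206507), (157, 326372457), (163, 277555315), (167, 249956735), (173, 214605493), (179, 185214466), (181, 176534079), (191, 139938061), (193, 133780379), (197, 122435089), (199, 117207313)]

/-- the upper bounds belonging to the lower bounds -/
def up (q : List (ℕ × ℕ)) : List (ℕ × ℕ) := q.map fun e => (e.1, e.2 + 1)

/-- all conditions except those on the number of intervals -/
def okAll (a b : ℕ) (es : List (ℕ × ℕ × ℕ × ℕ)) (ql : List (ℕ × ℕ)) (xM : ℕ) : Bool :=
  okEs a b DD es && (ql.all fun e => okX a b DD e.1 e.2 (e.2 + 1)) &&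
  okX a b DD 200 (xM - 1) xM && okL (up ql) &&
  (ql.all fun e => isPr e.1 && Nat.ble 23 e.1 && Nat.blt e.1 12544) &&
  decide ((ql.map Prod.fst).Nodup) && chkI DD es [(DD, topI DD ql)]

/-- the outer intervals -/
def outL (es : List (ℕ × ℕ × ℕ × ℕ)) (ql : List (ℕ × ℕ)) (xM : ℕ) : List (ℕ × ℕ) :=
  runO DD es [(DD, topO DD xM (up ql))]

/-- the inner intervals -/
def inL (es : List (ℕ × ℕ × ℕ × ℕ)) (ql : List (ℕ × ℕ)) : List (ℕ × ℕ) :=
  runI DD es [(DD, topI DD ql)]

/-- the whole check -/
def chkAll (a b : ℕ) (es : List (ℕ × ℕ × ℕ × ℕ)) (ql : List (ℕ × ℕ)) (xM N : ℕ) : Bool :=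
  okAll a b es ql xM && (sepB (outL es ql xM) && Nat.beq (outL es ql xM).length N) &&
    Nat.beq (inL es ql).length N && decide (es.map Prod.fst = smalls)

theorem all1 : chkAll 56 13 es1 ql1 122425191 253 = true := by decide +kernel

theorem all2 : chkAll 108 25 es2 ql2 114696567 251 = true := by decide +kernel

theorem count {a b : ℕ} (ha : 0 < a) (hb : 0 < b) (h4 : (4 : ℝ) ≤ (a : ℝ) / b)
    (h5 : (a : ℝ) / b ≤ 108 / 25) {es : List (ℕ × ℕ × ℕ × ℕ)} {ql : List (ℕ × ℕ)} {xM : ℕ}
    {N : ℕ} (hall : chkAll a b es ql xM N = true) :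
    Finite (ConnectedComponents (closure (B ((a : ℝ) / b) []))) ∧
      Nat.card (ConnectedComponents (closure (B ((a : ℝ) / b) []))) = N := by
  have hD : 0 < DD := by decide
  rw [chkAll, Bool.and_eq_true, Bool.and_eq_true, Bool.and_eq_true] at hall
  obtain ⟨⟨⟨hok, hout⟩, hin⟩, hes'⟩ := hall
  have hes : es.map Prod.fst = smalls := of_decide_eq_true hes'
  have hD' : (0 : ℝ) < (DD : ℕ) := by exact_mod_cast hD
  simp only [okAll, Bool.and_eq_true, List.all_eq_true, decide_eq_true_eq, Nat.ble_eq,
    Nat.blt_eq] at hok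
  obtain ⟨⟨⟨⟨⟨⟨h1, h2⟩, h3⟩, h6⟩, h7⟩, h8⟩, h9⟩ := hok
  rw [Bool.and_eq_true, Nat.beq_eq] at hout
  rw [Nat.beq_eq] at hin
  have hprs : ∀ e ∈ es, e.1.Prime := by
    intro e he
    have : e.1 ∈ smalls := by
      rw [← hes]
      exact List.mem_map_of_mem he
    simp only [smalls, List.mem_cons, List.not_mem_nil, or_false] at this
    rcases this with h | h | h | h | h | h | h | h <;> rw [h] <;> norm_num
  have hnds : (es.map Prod.fst).Nodup := by
    rw [hes]
    decide
  have hpr : ∀ e ∈ ql, e.1.Prime ∧ 23 ≤ e.1 := by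
    intro e he
    obtain ⟨⟨g1, g2⟩, g3⟩ := h7 e he
    exact ⟨isPr_prime (by omega) g3 g1, g2⟩
  have hI : Inn DD (B ((a : ℝ) / b) []) (inL es ql) := by
    refine runI_spec ha hb hD es _ h1 h9 hprs hnds ?_
    rw [hes]
    exact Inn_base h4 h5 hD h8 hpr fun e he => okX_lo hb (hpr e he).1.pos (h2 e he)
  have hO : Out DD (B ((a : ℝ) / b) []) (outL es ql xM) := by
    refine runO_spec ha hb hD es _ h1 hprs hnds ?_
    rw [hes]
    refine Out_base h4 hD h6 ?_ ?_ (okX_hi hb (by norm_num) h3)
    · rw [up, List.map_map]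
      exact h8
    · intro e he
      rw [up] at he
      obtain ⟨e', he', rfl⟩ := List.mem_map.1 he
      exact okX_hi hb (hpr e' he').1.pos (h2 e' he')
  obtain ⟨u1, u2⟩ := upper hD' hI
  have l1 := lower hD' hO hout.1 u1
  refine ⟨u1, ?_⟩
  rw [hin] at u2
  rw [hout.2] at l1
  omega

theorem count1 : Finite (ConnectedComponents (closure (B (((56 : ℕ) : ℝ) / ((13 : ℕ) : ℝ)) []))) ∧
    Nat.card (ConnectedComponents (closure (B (((56 : ℕ) : ℝ) / ((13 : ℕ) : ℝ)) []))) = 253 := by
  refine count (a := 56) (b := 13) ?_ ?_ ?_ ?_ all1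
  · norm_num
  · norm_num
  · norm_num
  · norm_num

theorem count2 : Finite (ConnectedComponents (closure (B (((108 : ℕ) : ℝ) / ((25 : ℕ) : ℝ)) []))) ∧
    Nat.card (ConnectedComponents (closure (B (((108 : ℕ) : ℝ) / ((25 : ℕ) : ℝ)) []))) = 251 := by
  refine count (a := 108) (b := 25) ?_ ?_ ?_ ?_ all2
  · norm_num
  · norm_num
  · norm_num
  · norm_num

end Pool.Agent.V1114.DC
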