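import Pool.Agent.V1114.DC.Basic

/-!
# Counting the connected components of a closed set of reals from interval lists
-/

set_option autoImplicit false

namespace Pool.Agent.V1114.DC

theorem closed_cover (D : ℝ) (L : List (ℕ × ℕ)) :
    IsClosed {y : ℝ | ∃ I ∈ L, (I.1 : ℝ) ≤ y * D ∧ y * D ≤ I.2} := by
  have h : {y : ℝ | ∃ I ∈ L, (I.1 : ℝ) ≤ y * D ∧ y * D ≤ I.2} =
      ⋃ I ∈ {I | I ∈ L}, {y : ℝ | (I.1 : ℝ) ≤ y * D ∧ y * D ≤ I.2} := by
    ext y
    simp only [Set.mem_setOf_eq, Set.mem_iUnion, exists_prop]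
  rw [h]
  refine Set.Finite.isClosed_biUnion (List.finite_toSet L) fun I _ => ?_
  exact (isClosed_le continuous_const (continuous_id.mul continuous_const)).inter
    (isClosed_le (continuous_id.mul continuous_const) continuous_const)

theorem closed_list (C : List (Set ℝ)) (h : ∀ c ∈ C, IsClosed c) :
    IsClosed {y : ℝ | ∃ c ∈ C, y ∈ c} := by
  have h' : {y : ℝ | ∃ c ∈ C, y ∈ c} = ⋃ c ∈ {c | c ∈ C}, c := by
    ext y
    simp
  rw [h']
  exact Set.Finite.isClosed_biUnion (List.finite_toSet C) fun c hc => h c hc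

theorem forall₂_left {α β : Type} {R : α → β → Prop} {C : List α} {L : List β}
    (h : List.Forall₂ R C L) : ∀ c ∈ C, ∃ I ∈ L, R c I := by
  induction h with
  | nil => intro c hc; simp at hc
  | cons h1 _ ih =>
    intro c hc
    rcases List.mem_cons.1 hc with rfl | hc
    · exact ⟨_, List.mem_cons_self, h1⟩
    · obtain ⟨I, hI, h2⟩ := ih c hc
      exact ⟨I, List.mem_cons_of_mem _ hI, h2⟩

theorem upper {D : ℝ} (hD : 0 < D) {S : Set ℝ} {L : List (ℕ × ℕ)} (h : Inn D S L) :
    Finite (ConnectedComponents (closure S)) ∧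
      Nat.card (ConnectedComponents (closure S)) ≤ L.length := by
  obtain ⟨C, hC, hcov⟩ := h
  have hgood := forall₂_left hC
  have hlen : C.length = L.length := hC.length_eq
  have hcl : ∀ y ∈ closure S, ∃ c ∈ C, y ∈ c := by
    have h1 : closure S ⊆ {y : ℝ | ∃ c ∈ C, y ∈ c} :=
      closure_minimal hcov (closed_list C fun c hc => by
        obtain ⟨I, -, h2⟩ := hgood c hc
        exact h2.1)
    exact h1
  have hne : ∀ i : Fin C.length, ∃ y : closure S, (y : ℝ) ∈ C[i] := by
    intro i
    obtain ⟨I, -, h1, h2, h3, h4, h5⟩ := hgood C[i] (List.getElem_mem _)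
    have h6 : (I.1 : ℝ) / D ∈ C[i] := by
      apply h5
      · rw [div_mul_cancel₀ _ hD.ne']
      · rw [div_mul_cancel₀ _ hD.ne']
        exact_mod_cast h4
    exact ⟨⟨_, h3 h6⟩, h6⟩
  choose y hy using hne
  have hsurj : Function.Surjective
      (fun i : Fin C.length => (ConnectedComponents.mk (y i) : ConnectedComponents (closure S))) := by
    intro q
    obtain ⟨x, rfl⟩ := ConnectedComponents.surjective_coe q
    obtain ⟨c, hc, hxc⟩ := hcl x x.2
    obtain ⟨i, hi, rfl⟩ := List.mem_iff_getElem.1 hc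
    refine ⟨⟨i, hi⟩, ?_⟩
    obtain ⟨I, -, h1, h2, h3, h4, h5⟩ := hgood C[i] (List.getElem_mem _)
    have hpre : IsPreconnected (Subtype.val ⁻¹' C[i] : Set (closure S)) := by
      rw [← Topology.IsInducing.subtypeVal.isPreconnected_image]
      rw [Subtype.image_preimage_coe, Set.inter_eq_self_of_subset_right h3]
      exact h2
    have h7 : x ∈ (Subtype.val ⁻¹' C[i] : Set (closure S)) := hxc
    have h8 := hpre.subset_connectedComponent h7
    exact ConnectedComponents.coe_eq_coe'.2 (h8 (hy ⟨i, hi⟩))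
  have hfin : Finite (ConnectedComponents (closure S)) := Finite.of_surjective _ hsurj
  refine ⟨hfin, ?_⟩
  have := Nat.card_le_card_of_surjective _ hsurj
  rw [Nat.card_fin] at this
  omega

/-- consecutive intervals are separated -/
def sepB : List (ℕ × ℕ) → Bool
  | [] => true
  | [_] => true
  | I :: K :: L => Nat.blt I.2 K.1 && sepB (K :: L)

theorem sep_pairwise : ∀ L : List (ℕ × ℕ), sepB L = true → (∀ I ∈ L, I.1 ≤ I.2) →
    L.Pairwise (fun I K => I.2 < K.1) := by
  intro L
  induction L with
  | nil => intro _ _; exact List.Pairwise.nil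
  | cons I L ih =>
    intro h1 h2
    cases L with
    | nil => exact List.pairwise_singleton _ _
    | cons K L =>
      rw [sepB, Bool.and_eq_true, Nat.blt_eq] at h1
      have h3 := ih h1.2 fun M hM => h2 M (List.mem_cons_of_mem _ hM)
      refine List.Pairwise.cons ?_ h3
      intro M hM
      rcases List.mem_cons.1 hM with rfl | hM'
      · exact h1.1
      · have h4 := (List.pairwise_cons.1 h3).1 M hM'
        have h5 := h2 K (by simp)
        omega

theorem lower {D : ℝ} (hD : 0 < D) {S : Set ℝ} {L : List (ℕ × ℕ)} (h : Out D S L)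
    (hs : sepB L = true) (hfin : Finite (ConnectedComponents (closure S))) :
    L.length ≤ Nat.card (ConnectedComponents (closure S)) := by
  have hcl : ∀ y ∈ closure S, ∃ I ∈ L, (I.1 : ℝ) ≤ y * D ∧ y * D ≤ I.2 :=
    closure_minimal h.1 (closed_cover D L)
  have hle : ∀ I ∈ L, I.1 ≤ I.2 := by
    intro I hI
    obtain ⟨y, -, h1, h2⟩ := h.2 I hI
    exact_mod_cast h1.trans h2
  have hpw := sep_pairwise L hs hle
  rw [List.pairwise_iff_getElem] at hpw
  have hy : ∀ i : Fin L.length, ∃ y : closure S, (L[i].1 : ℝ) ≤ y * D ∧ (y : ℝ) * D ≤ L[i].2 := by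
    intro i
    obtain ⟨y, h1, h2⟩ := h.2 L[i] (List.getElem_mem _)
    exact ⟨⟨y, subset_closure h1⟩, h2⟩
  choose y hy1 hy2 using hy
  have key : ∀ i j : Fin L.length, i < j →
      (ConnectedComponents.mk (y i) : ConnectedComponents (closure S)) ≠
        ConnectedComponents.mk (y j) := by
    intro i j hij heq
    have h1 : y j ∈ connectedComponent (y i) := ConnectedComponents.coe_eq_coe'.1 heq.symm
    have h2 : IsPreconnected (Subtype.val '' (connectedComponent (y i))) :=
      isPreconnected_connectedComponent.image _ continuous_subtype_val.continuousOn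
    have h3 := h2.ordConnected.out (Set.mem_image_of_mem _ mem_connectedComponent)
      (Set.mem_image_of_mem _ h1)
    -- the point in the gap after the `i`-th interval
    have hgap : L[i].2 < L[j].1 := hpw i j i.2 j.2 hij
    set t : ℝ := ((L[i].2 : ℝ) + 1 / 2) / D with ht
    have htD : t * D = (L[i].2 : ℝ) + 1 / 2 := by rw [ht, div_mul_cancel₀ _ hD.ne']
    have hgap' : (L[i].2 : ℝ) + 1 ≤ L[j].1 := by exact_mod_cast hgap
    have ht1 : (y i : ℝ) ≤ t := by
      have := hy2 i
      by_contra hcon
      push Not at hcon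
      nlinarith
    have ht2 : t ≤ (y j : ℝ) := by
      have := hy1 j
      by_contra hcon
      push Not at hcon
      nlinarith
    obtain ⟨z, -, hz⟩ := h3 ⟨ht1, ht2⟩
    obtain ⟨M, hM, hM1, hM2⟩ := hcl t (by rw [← hz]; exact z.2)
    rw [htD] at hM1 hM2
    obtain ⟨k, hk, rfl⟩ := List.mem_iff_getElem.1 hM
    rcases lt_trichotomy k i with hki | hki | hki
    · have h5 := hpw k i hk i.2 hki
      have h6 := hle L[i] (List.getElem_mem _)
      have h7 : (L[k].2 : ℝ) ≤ L[i].2 := by exact_mod_cast (h5.trans_le h6).le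
      linarith
    · subst hki
      have : (L[i].2 : ℝ) + 1 / 2 ≤ L[i].2 := hM2
      linarith
    · have h5 : L[i].2 < L[k].1 := hpw i k i.2 hk hki
      have h6 : (L[i].2 : ℝ) + 1 ≤ L[k].1 := by exact_mod_cast h5
      linarith
  have hinj : Function.Injective
      (fun i : Fin L.length => (ConnectedComponents.mk (y i) : ConnectedComponents (closure S))) := by
    intro i j hij
    rcases lt_trichotomy i j with h1 | h1 | h1
    · exact absurd hij (key i j h1)
    · exact h1
    · exact absurd hij.symm (key j i h1)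
  have := Nat.card_le_card_of_injective _ hinj
  rwa [Nat.card_fin] at this

end Pool.Agent.V1114.DC
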