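import Pool.Agent.V1114.DC.Steps

/-!
# The closed values at the integers with only large prime factors are an interval
-/

set_option autoImplicit false

namespace Pool.Agent.V1114.DC

open Finset

/-- the values of `sig r` at the positive integers all of whose prime factors are at least `k` -/
def R (r : ℝ) (k : ℕ) : Set ℝ :=
  {y | ∃ n : ℕ, 0 < n ∧ (∀ q : ℕ, q.Prime → q ∣ n → k ≤ q) ∧ y = sig r n}

theorem R_step (r : ℝ) {p : ℕ} (hp : p.Prime) (y : ℝ) :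
    y ∈ R r p ↔ ∃ j : ℕ, ∃ z ∈ R r (p + 1), y = ff ((p : ℝ) ^ (-r)) j * z := by
  constructor
  · rintro ⟨n, hn, hd, rfl⟩
    obtain ⟨j, m, hm, rfl⟩ := Nat.exists_eq_pow_mul_and_not_dvd hn.ne' p hp.ne_one
    refine ⟨j, sig r m, ⟨m, Nat.pos_of_ne_zero (fun h => by simp [h] at hn), ?_, rfl⟩, ?_⟩
    · intro q hq h
      have h1 := hd q hq (dvd_mul_of_dvd_right h _)
      have h2 : q ≠ p := fun h3 => hm (h3 ▸ h)
      omega
    · rw [sig_mul r (Nat.Coprime.pow_left j ((Nat.Prime.coprime_iff_not_dvd hp).2 hm)),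
        sig_prime_pow r hp]
  · rintro ⟨j, z, ⟨m, hm0, hm, rfl⟩, rfl⟩
    have hpm : ¬ p ∣ m := fun h => by
      have := hm p hp h
      omega
    refine ⟨p ^ j * m, Nat.mul_pos (pow_pos hp.pos j) hm0, ?_, ?_⟩
    · intro q hq h
      rcases hq.dvd_mul.1 h with h | h
      · exact ((Nat.prime_dvd_prime_iff_eq hq hp).1 (hq.dvd_of_dvd_pow h)).ge
      · have := hm q hq h
        omega
    · rw [sig_mul r (Nat.Coprime.pow_left j ((Nat.Prime.coprime_iff_not_dvd hp).2 hpm)),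
        sig_prime_pow r hp]

theorem R_nonprime (r : ℝ) {k : ℕ} (hk : ¬ k.Prime) : R r k = R r (k + 1) := by
  ext y
  constructor
  · rintro ⟨n, hn, hd, rfl⟩
    refine ⟨n, hn, fun q hq h => ?_, rfl⟩
    have h1 := hd q hq h
    have h2 : q ≠ k := fun h3 => hk (h3 ▸ hq)
    omega
  · rintro ⟨n, hn, hd, rfl⟩
    exact ⟨n, hn, fun q hq h => by have := hd q hq h; omega, rfl⟩

theorem one_le_sig (r : ℝ) {n : ℕ} (hn : 0 < n) : 1 ≤ sig r n := by
  unfold sig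
  have h : (1 : ℝ) = ∑ d ∈ ({1} : Finset ℕ), (d : ℝ) ^ (-r) := by simp
  rw [h]
  refine sum_le_sum_of_subset_of_nonneg (by simp [hn.ne']) fun d _ _ => by positivity

theorem R_one_le {r : ℝ} {k : ℕ} {y : ℝ} (hy : y ∈ R r k) : 1 ≤ y := by
  obtain ⟨n, hn, -, rfl⟩ := hy
  exact one_le_sig r hn

/-- `∑_{M ≤ d < N} d ^ (-4) ≤ 1 / (3 (M - 1) ^ 3)` -/
theorem tail4 (M : ℕ) (hM : 2 ≤ M) : ∀ N, M ≤ N →
    ∑ d ∈ Ico M N, 1 / (d : ℝ) ^ 4 ≤ 1 / (3 * ((M : ℝ) - 1) ^ 3) - 1 / (3 * ((N : ℝ) - 1) ^ 3) := by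
  intro N hN
  induction N, hN using Nat.le_induction with
  | base => simp
  | succ N hN ih =>
    rw [sum_Ico_succ_top hN]
    have hN2 : (2 : ℝ) ≤ N := by exact_mod_cast hM.trans hN
    have key : 1 / (N : ℝ) ^ 4 ≤ 1 / (3 * ((N : ℝ) - 1) ^ 3) - 1 / (3 * (((N + 1 : ℕ) : ℝ) - 1) ^ 3) := by
      push_cast
      rw [add_sub_cancel_right]
      have h1 : (0 : ℝ) < N - 1 := by linarith
      have h2 : (0 : ℝ) < N := by linarith
      rw [div_sub_div _ _ (by positivity) (by positivity), div_le_div_iff₀ (by positivity) (by positivity)]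
      have h3 : 0 ≤ (N : ℝ) ^ 3 * ((N : ℝ) * (3 * (N:ℝ)^2 - 3 * N + 1) - 3 * ((N : ℝ) - 1) ^ 3) := by
        have : (N : ℝ) * (3 * (N:ℝ)^2 - 3 * N + 1) - 3 * ((N : ℝ) - 1) ^ 3 = 6 * (N:ℝ)^2 - 8 * N + 3 := by
          ring
        rw [this]
        have : 0 ≤ 6 * (N:ℝ)^2 - 8 * N + 3 := by nlinarith
        positivity
      nlinarith [h3]
    linarith

theorem rpow_neg_le {r : ℝ} (hr : 4 ≤ r) {d : ℕ} (hd : 0 < d) :
    (d : ℝ) ^ (-r) ≤ 1 / (d : ℝ) ^ 4 := by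
  have h1 : (1 : ℝ) ≤ d := by exact_mod_cast hd
  have h2 : (1 : ℝ) / (d : ℝ) ^ 4 = (d : ℝ) ^ (-(4 : ℝ)) := by
    rw [Real.rpow_neg (by positivity), one_div]
    norm_cast
  rw [h2]
  exact Real.rpow_le_rpow_of_exponent_le h1 (by linarith)

theorem R_small {r : ℝ} (hr : 4 ≤ r) {N : ℕ} (hN : 2 ≤ N) {y : ℝ} (hy : y ∈ R r N) :
    y ≤ 1 + 1 / (3 * ((N : ℝ) - 1) ^ 3) := by
  obtain ⟨n, hn, hd, rfl⟩ := hy
  have hsub : n.divisors ⊆ {1} ∪ Ico N (n + 1 + N) := by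
    intro d hdn
    rw [Nat.mem_divisors] at hdn
    rw [mem_union, mem_singleton, mem_Ico]
    by_cases h1 : d = 1
    · exact Or.inl h1
    · right
      have h2 := hd d.minFac (Nat.minFac_prime h1) ((Nat.minFac_dvd d).trans hdn.1)
      have h3 := Nat.minFac_le (Nat.pos_of_dvd_of_pos hdn.1 hn)
      have h4 := Nat.le_of_dvd hn hdn.1
      omega
  unfold sig
  calc ∑ d ∈ n.divisors, (d : ℝ) ^ (-r)
      ≤ ∑ d ∈ {1} ∪ Ico N (n + 1 + N), (d : ℝ) ^ (-r) :=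
        sum_le_sum_of_subset_of_nonneg hsub fun d _ _ => by positivity
    _ = 1 + ∑ d ∈ Ico N (n + 1 + N), (d : ℝ) ^ (-r) := by
        rw [sum_union, sum_singleton]
        · simp
        · rw [disjoint_singleton_left, mem_Ico]
          omega
    _ ≤ 1 + ∑ d ∈ Ico N (n + 1 + N), 1 / (d : ℝ) ^ 4 := by
        gcongr with d hd
        exact rpow_neg_le hr (by rw [mem_Ico] at hd; omega)
    _ ≤ 1 + (1 / (3 * ((N : ℝ) - 1) ^ 3) - 1 / (3 * (((n + 1 + N : ℕ) : ℝ) - 1) ^ 3)) := by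
        gcongr
        exact tail4 N hN _ (by omega)
    _ ≤ _ := by
        have : (0 : ℝ) ≤ 1 / (3 * (((n + 1 + N : ℕ) : ℝ) - 1) ^ 3) := by
          push_cast
          have : (0 : ℝ) ≤ n := by positivity
          have h2 : (0 : ℝ) ≤ (n : ℝ) + 1 + N - 1 := by
            have : (0 : ℝ) ≤ N := by positivity
            linarith
          positivity
        linarith

/-- Every number between `1` and a value is approximated from below by values. -/
def Ap (r : ℝ) (k : ℕ) (ε : ℝ) : Prop :=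
  ∀ b ∈ R r k, ∀ y : ℝ, 1 ≤ y → y ≤ b → ∃ a ∈ R r k, a ≤ y ∧ y ≤ a * (1 + ε)

theorem one_mem_R (r : ℝ) (k : ℕ) : (1 : ℝ) ∈ R r k :=
  ⟨1, one_pos, fun _ hq h => absurd (Nat.dvd_one.1 h) hq.ne_one, (sig_one r).symm⟩

theorem Ap_step {r ε : ℝ} (_hε : 0 ≤ ε) {k : ℕ} (hr : 0 < r)
    (H : k.Prime → ∃ b ∈ R r (k + 1), 1 + (k : ℝ) ^ (-r) ≤ b)
    (h : Ap r (k + 1) ε) : Ap r k ε := by
  by_cases hk : k.Prime
  · obtain ⟨b0, hb0, hb0'⟩ := H hk
    set x : ℝ := (k : ℝ) ^ (-r) with hx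
    have hx0 : 0 < x := Real.rpow_pos_of_pos (by exact_mod_cast hk.pos) _
    have hx1 : x < 1 := Real.rpow_lt_one_of_one_lt_of_neg (by exact_mod_cast hk.one_lt) (by linarith)
    have hf1 : ∀ j, 1 ≤ ff x j := fun j => one_le_ff hx0.le j
    have hf0 : ∀ j, 0 < ff x j := fun j => zero_lt_one.trans_le (hf1 j)
    intro b hb y hy1 hyb
    obtain ⟨i, b', hb', rfl⟩ := (R_step r hk b).1 hb
    -- lifting an approximation
    have lift : ∀ j, (∃ a ∈ R r (k + 1), a ≤ y / ff x j ∧ y / ff x j ≤ a * (1 + ε)) →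
        ∃ a ∈ R r k, a ≤ y ∧ y ≤ a * (1 + ε) := by
      rintro j ⟨a, ha, h1, h2⟩
      refine ⟨ff x j * a, (R_step r hk _).2 ⟨j, a, ha, rfl⟩, ?_, ?_⟩
      · rw [le_div_iff₀ (hf0 j)] at h1
        linarith
      · rw [div_le_iff₀ (hf0 j)] at h2
        linarith
    set j := Nat.findGreatest (fun j => ff x j ≤ y) i with hj
    have hj1 : ff x j ≤ y :=
      Nat.findGreatest_spec (P := fun j => ff x j ≤ y) (Nat.zero_le i) (by rw [ff_zero]; exact hy1)
    have hji : j ≤ i := Nat.findGreatest_le i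
    apply lift j
    have hy1' : 1 ≤ y / ff x j := by rwa [le_div_iff₀ (hf0 j), one_mul]
    rcases hji.eq_or_lt with h1 | h1
    · refine h b' hb' _ hy1' ?_
      rw [div_le_iff₀ (hf0 j), h1, mul_comm]
      exact hyb
    · refine h b0 hb0 _ hy1' ?_
      have h2 : ¬ ff x (j + 1) ≤ y := fun hcon =>
        absurd (Nat.le_findGreatest (P := fun j => ff x j ≤ y) h1 hcon) (by omega)
      rw [div_le_iff₀ (hf0 j)]
      have h3 : ff x (j + 1) ≤ (1 + x) * ff x j := by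
        rw [ff_succ', pow_succ]
        have h4 : x ^ j ≤ 1 := pow_le_one₀ hx0.le hx1.le
        have h5 := hf1 j
        nlinarith
      have h6 : (1 + x) * ff x j ≤ b0 * ff x j := by
        have := hf0 j
        gcongr
      linarith
  · intro b hb
    rw [R_nonprime r hk] at hb ⊢
    exact h b hb

theorem Ap_all {r ε : ℝ} (hε : 0 < ε) (hr : 4 ≤ r) (k0 : ℕ)
    (H : ∀ k, k0 ≤ k → k.Prime → ∃ b ∈ R r (k + 1), 1 + (k : ℝ) ^ (-r) ≤ b) : Ap r k0 ε := by
  obtain ⟨N, hN⟩ := exists_nat_gt (1 / ε)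
  have hbase : ∀ m, Ap r (k0 + (N + 2) + m) ε := by
    intro m b hb y hy1 hyb
    refine ⟨1, one_mem_R r _, hy1, ?_⟩
    have h1 := R_small hr (by omega) hb
    rw [one_mul]
    refine hyb.trans (h1.trans ?_)
    have h2 : (1 : ℝ) / (3 * (((k0 + (N + 2) + m : ℕ) : ℝ) - 1) ^ 3) ≤ 1 / (N : ℝ) := by
      have hN0 : (0 : ℝ) < N := lt_trans (by positivity) hN
      have hN1 : (1 : ℝ) ≤ N := by
        have : 0 < N := by exact_mod_cast hN0
        exact_mod_cast this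
      apply one_div_le_one_div_of_le hN0
      push_cast
      have h3 : (N : ℝ) ≤ (k0 : ℝ) + (N + 2) + m - 1 := by
        have : (0 : ℝ) ≤ k0 := by positivity
        have : (0 : ℝ) ≤ m := by positivity
        linarith
      have h4 : (N : ℝ) ≤ ((k0 : ℝ) + (N + 2) + m - 1) ^ 3 := by
        calc (N : ℝ) ≤ (N : ℝ) ^ 3 := by nlinarith [sq_nonneg ((N : ℝ) - 1), sq_nonneg ((N : ℝ)), mul_pos hN0 hN0]
          _ ≤ _ := by gcongr
      nlinarith
    have h5 : 1 / (N : ℝ) ≤ ε := by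
      have hN0 : (0 : ℝ) < N := lt_trans (by positivity) hN
      rw [div_le_iff₀ hN0]
      rw [div_lt_iff₀ hε] at hN
      linarith
    linarith
  have hall : ∀ t, t ≤ N + 2 → Ap r (k0 + (N + 2) - t) ε := by
    intro t
    induction t with
    | zero => intro _; simpa using hbase 0
    | succ t ih =>
      intro ht
      have h1 := ih (by omega)
      have h2 : k0 + (N + 2) - t = (k0 + (N + 2) - (t + 1)) + 1 := by omega
      rw [h2] at h1
      exact Ap_step hε.le (by linarith) (H _ (by omega)) h1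
  have := hall (N + 2) le_rfl
  simpa using this

theorem R_Icc {r : ℝ} (hr : 4 ≤ r) (k0 : ℕ)
    (H : ∀ k, k0 ≤ k → k.Prime → ∃ b ∈ R r (k + 1), 1 + (k : ℝ) ^ (-r) ≤ b) {b : ℝ}
    (hb : b ∈ R r k0) {y : ℝ} (hy1 : 1 ≤ y) (hyb : y ≤ b) : y ∈ closure (R r k0) := by
  rw [Metric.mem_closure_iff]
  intro δ hδ
  obtain ⟨a, ha, h1, h2⟩ := Ap_all (ε := δ / (2 * y)) (by positivity) hr k0 H b hb y hy1 hyb
  refine ⟨a, ha, ?_⟩
  rw [Real.dist_eq, abs_of_nonneg (by linarith)]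
  have ha1 := R_one_le ha
  have h3 : a * (1 + δ / (2 * y)) ≤ a + δ / 2 := by
    have h4 : a * (δ / (2 * y)) ≤ y * (δ / (2 * y)) := by gcongr
    have h5 : y * (δ / (2 * y)) = δ / 2 := by field_simp
    nlinarith
  linarith

theorem R_preconnected {r : ℝ} (hr : 4 ≤ r) (k0 : ℕ)
    (H : ∀ k, k0 ≤ k → k.Prime → ∃ b ∈ R r (k + 1), 1 + (k : ℝ) ^ (-r) ≤ b) :
    IsPreconnected (closure (R r k0)) := by
  apply Set.OrdConnected.isPreconnected
  constructor
  intro u hu v hv y hy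
  have hu1 : 1 ≤ u := by
    have : closure (R r k0) ⊆ Set.Ici 1 := closure_minimal (fun z hz => R_one_le hz) isClosed_Ici
    exact this hu
  rcases hy.2.eq_or_lt with h | h
  · rw [h]; exact hv
  · obtain ⟨b, hb, hbv⟩ := Metric.mem_closure_iff.1 hv (v - y) (by linarith)
    rw [Real.dist_eq, abs_lt] at hbv
    exact R_Icc hr k0 H hb (hu1.trans hy.1) (by linarith)

end Pool.Agent.V1114.DC
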