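import Pool.Agent.V1114.DC.Conn

/-!
# Enough primes just after every prime

For every `k ≥ 23` there are finitely many primes `q > k` with `∑ (k / q) ^ (108/25) ≥ 1`.
-/

set_option autoImplicit false

namespace Pool.Agent.V1114.DC

open Finset

/-- trial division, for numbers below `112 ^ 2` -/
def isPr (n : ℕ) : Bool :=
  (List.range 112).all fun d => Nat.ble d 1 || Nat.ble n d || !(Nat.beq (n % d) 0)

theorem isPr_prime {n : ℕ} (h2 : 2 ≤ n) (hn : n < 12544) (h : isPr n = true) : n.Prime := by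
  rw [isPr, List.all_eq_true] at h
  rw [Nat.prime_def_le_sqrt]
  refine ⟨h2, fun m hm2 hm hdvd => ?_⟩
  have h3 : m * m ≤ n := Nat.le_sqrt.1 hm
  have h4 : m < 112 := by nlinarith
  have h5 := h m (List.mem_range.2 h4)
  simp only [Bool.or_eq_true, Nat.ble_eq, Bool.not_eq_true'] at h5
  rcases h5 with (h5 | h5) | h5
  · omega
  · have : 2 * m ≤ m * m := Nat.mul_le_mul_right m hm2
    omega
  · rw [Nat.mod_eq_zero_of_dvd hdvd] at h5
    exact absurd h5 (by decide)

/-- check one line of the table: for `a ≤ k < b` the listed primes `p ≥ b` suffice -/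
def okE (e : ℕ × ℕ × List (ℕ × ℕ)) : Bool :=
  (e.2.2.all fun py => isPr py.1 && Nat.ble e.2.1 py.1 && Nat.ble 2 py.1 && Nat.blt py.1 12544 &&
    Nat.ble (py.2 ^ 25 * py.1 ^ 108) ((10 ^ 6) ^ 25 * e.1 ^ 108)) &&
  decide ((e.2.2.map Prod.fst).Nodup) && Nat.ble (10 ^ 6) (e.2.2.map Prod.snd).sum

theorem okE_spec {e : ℕ × ℕ × List (ℕ × ℕ)} (h : okE e = true) {k : ℕ} (h1 : e.1 ≤ k)
    (h2 : k < e.2.1) (hk : 0 < k) : ∃ P : Finset ℕ, (∀ q ∈ P, q.Prime ∧ k < q) ∧
      1 ≤ ∑ q ∈ P, ((k : ℝ) / q) ^ (108 / 25 : ℝ) := by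
  rw [okE, Bool.and_eq_true, Bool.and_eq_true, List.all_eq_true, decide_eq_true_iff,
    Nat.ble_eq] at h
  obtain ⟨⟨h3, h4⟩, h5⟩ := h
  simp only [Bool.and_eq_true, Nat.ble_eq, Nat.blt_eq] at h3
  refine ⟨(e.2.2.map Prod.fst).toFinset, ?_, ?_⟩
  · intro q hq
    rw [List.mem_toFinset, List.mem_map] at hq
    obtain ⟨py, hpy, rfl⟩ := hq
    obtain ⟨⟨⟨⟨g1, g2⟩, g3⟩, g4⟩, g5⟩ := h3 py hpy
    exact ⟨isPr_prime g3 g4 g1, by omega⟩
  · rw [List.sum_toFinset _ h4, List.map_map]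
    have h6 : ∀ py ∈ e.2.2, (py.2 : ℝ) / 10 ^ 6 ≤ ((k : ℝ) / py.1) ^ (108 / 25 : ℝ) := by
      intro py hpy
      obtain ⟨⟨⟨⟨g1, g2⟩, g3⟩, g4⟩, g5⟩ := h3 py hpy
      have hp0 : (0 : ℝ) < py.1 := by
        have : 0 < py.1 := by omega
        exact_mod_cast this
      apply le_of_pow_le_pow_left₀ (n := 25) (by norm_num) (by positivity)
      rw [← Real.rpow_natCast (((k : ℝ) / py.1) ^ (108 / 25 : ℝ)), ← Real.rpow_mul (by positivity)]
      have h7 : (108 / 25 : ℝ) * ((25 : ℕ) : ℝ) = ((108 : ℕ) : ℝ) := by norm_num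
      rw [h7, Real.rpow_natCast, div_pow, div_pow, div_le_div_iff₀ (by positivity) (by positivity)]
      have h8 : ((py.2 ^ 25 * py.1 ^ 108 : ℕ) : ℝ) ≤ (((10 ^ 6) ^ 25 * e.1 ^ 108 : ℕ) : ℝ) := by
        exact_mod_cast g5
      push_cast at h8
      have h9 : (e.1 : ℝ) ^ 108 ≤ (k : ℝ) ^ 108 := by
        have : (e.1 : ℝ) ≤ k := by exact_mod_cast h1
        gcongr
      calc (py.2 : ℝ) ^ 25 * (py.1 : ℝ) ^ 108 ≤ (10 ^ 6) ^ 25 * (e.1 : ℝ) ^ 108 := by
            refine le_trans h8 (le_of_eq ?_)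
            norm_num
        _ ≤ (10 ^ 6) ^ 25 * (k : ℝ) ^ 108 := by gcongr
        _ = _ := by ring
    have h7 : ((e.2.2.map fun py => (py.2 : ℝ) / 10 ^ 6).sum) ≤
        (e.2.2.map ((fun q : ℕ => ((k : ℝ) / q) ^ (108 / 25 : ℝ)) ∘ Prod.fst)).sum :=
      List.sum_le_sum h6
    have h8 : (e.2.2.map fun py => (py.2 : ℝ) / 10 ^ 6).sum =
        (((e.2.2.map Prod.snd).sum : ℕ) : ℝ) / 10 ^ 6 := by
      generalize e.2.2 = l
      induction l with
      | nil => simp
      | cons a l ih =>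
        rw [List.map_cons, List.sum_cons, ih, List.map_cons, List.sum_cons]
        push_cast
        ring
    have h9 : ((10 ^ 6 : ℕ) : ℝ) ≤ (((e.2.2.map Prod.snd).sum : ℕ) : ℝ) := by exact_mod_cast h5
    have h10 : (1 : ℝ) ≤ (((e.2.2.map Prod.snd).sum : ℕ) : ℝ) / 10 ^ 6 := by
      rw [le_div_iff₀ (by positivity)]
      push_cast at h9 ⊢
      linarith
    linarith

/-- the table -/
def table : List (ℕ × ℕ × List (ℕ × ℕ)) :=
  [(23, 29, [(29, 367371), (31, 275411), (37, 128242), (41, 82307), (43, 67000), (47, 45624), (53, 27151), (59, 17083)]),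
  (29, 31, [(31, 749681), (37, 349082)]),
  (31, 37, [(37, 465640), (41, 298852), (43, 243275)]),
  (37, 43, [(43, 522453), (47, 355769), (53, 211718)]),
  (43, 53, [(53, 405239), (59, 254978), (61, 220779), (67, 147211)]),
  (53, 67, [(67, 363269), (71, 282771), (73, 250793), (79, 178288)]),
  (67, 83, [(83, 396484), (89, 293277), (97, 202203), (101, 169814)]),
  (83, 107, [(107, 333794), (109, 308130), (113, 263705), (127, 159215)]),
  (107, 139, [(139, 322934), (149, 239206), (151, 225817), (157, 190832), (163, 162288)]),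
  (139, 191, [(191, 253372), (193, 242223), (197, 221681), (199, 212216), (211, 164787)]),
  (191, 269, [(269, 227789), (271, 220615), (277, 200701), (281, 188648), (283, 182956)]),
  (269, 379, [(379, 227409), (383, 217325), (389, 203211), (397, 186103), (401, 178215)]),
  (379, 523, [(523, 248767), (541, 214936), (547, 204935), (557, 189507), (563, 180936)]),
  (523, 743, [(743, 219409), (751, 209489), (757, 202410), (761, 197854), (769, 189114)]),
  (743, 1061, [(1061, 214576), (1063, 212837), (1069, 207724), (1087, 193268), (1091, 190225)]),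
  (1061, 1523, [(1523, 209810), (1531, 205115), (1543, 198312), (1549, 195015), (1553, 192854)]),
  (1523, 2179, [(2179, 212810), (2203, 202974), (2207, 201389), (2213, 199041), (2221, 195962)]),
  (2179, 3121, [(3121, 211798), (3137, 207170), (3163, 199913), (3167, 198825), (3169, 198283)]),
  (3121, 4513, [(4513, 203263), (4517, 202486), (4519, 202099), (4523, 201328), (4547, 196778)]),
  (4513, 6529, [(6529, 202839), (6547, 200441), (6551, 199913), (6553, 199649), (6563, 198338)]),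
  (6529, 9463, [(9463, 201230), (9467, 200863), (9473, 200314), (9479, 199766), (9491, 198678)]),
  (9463, 12479, [(12479, 302655), (12487, 301818), (12491, 301400), (12497, 300776)])]

/-- the intervals of the table follow each other -/
def chainB : ℕ → List (ℕ × ℕ × List (ℕ × ℕ)) → ℕ → Bool
  | a, [], b => Nat.ble b a
  | a, e :: T, b => Nat.beq e.1 a && chainB e.2.1 T b

theorem chain_spec : ∀ (T : List (ℕ × ℕ × List (ℕ × ℕ))) (a b : ℕ), chainB a T b = true →
    ∀ k, a ≤ k → k < b → ∃ e ∈ T, e.1 ≤ k ∧ k < e.2.1 := by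
  intro T
  induction T with
  | nil =>
    intro a b h k h1 h2
    rw [chainB, Nat.ble_eq] at h
    omega
  | cons e T ih =>
    intro a b h k h1 h2
    rw [chainB, Bool.and_eq_true, Nat.beq_eq] at h
    by_cases h3 : k < e.2.1
    · exact ⟨e, by simp, by omega, h3⟩
    · obtain ⟨e', he', h4⟩ := ih _ _ h.2 k (by omega) h2
      exact ⟨e', by simp [he'], h4⟩

theorem table_ok : table.all okE = true := by decide +kernel

theorem table_chain : chainB 23 table 10000 = true := by decide +kernel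

theorem small_k (k : ℕ) (h1 : 23 ≤ k) (h2 : k < 10000) :
    ∃ P : Finset ℕ, (∀ q ∈ P, q.Prime ∧ k < q) ∧
      1 ≤ ∑ q ∈ P, ((k : ℝ) / q) ^ (108 / 25 : ℝ) := by
  obtain ⟨e, he, h3, h4⟩ := chain_spec table 23 10000 table_chain k h1 h2
  have := List.all_eq_true.1 table_ok e he
  exact okE_spec this h3 h4 (by omega)

open Chebyshev in
theorem large_k (k : ℕ) (hk : 10000 ≤ k) :
    ∃ P : Finset ℕ, (∀ q ∈ P, q.Prime ∧ k < q) ∧
      1 ≤ ∑ q ∈ P, ((k : ℝ) / q) ^ (108 / 25 : ℝ) := by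
  have hk0 : (0 : ℝ) < k := by
    have : 0 < k := by omega
    exact_mod_cast this
  have hkR : (10000 : ℝ) ≤ k := by exact_mod_cast hk
  set P : Finset ℕ := (Ioc k (4 * k)).filter Nat.Prime with hP
  refine ⟨P, fun q hq => ?_, ?_⟩
  · rw [hP, mem_filter, mem_Ioc] at hq
    exact ⟨hq.2, hq.1.1⟩
  -- the number of primes
  have hcard : (420 : ℝ) ≤ P.card := by
    have h1 := theta_ge (4 * k)
    have h2 := theta_le_log4_mul_x (x := (k : ℝ)) hk0.le
    have h3 : theta ((4 * k : ℕ) : ℝ) = theta (k : ℝ) + ∑ p ∈ P, Real.log p := by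
      rw [theta, theta, Nat.floor_natCast, Nat.floor_natCast, hP]
      rw [← sum_union]
      · congr 1
        ext p
        simp only [mem_filter, mem_Ioc, mem_union]
        constructor
        · rintro ⟨⟨g1, g2⟩, g3⟩
          by_cases g4 : p ≤ k
          · exact Or.inl ⟨⟨g1, g4⟩, g3⟩
          · exact Or.inr ⟨⟨by omega, g2⟩, g3⟩
        · rintro (⟨⟨g1, g2⟩, g3⟩ | ⟨⟨g1, g2⟩, g3⟩)
          · exact ⟨⟨g1, by omega⟩, g3⟩
          · exact ⟨⟨by omega, g2⟩, g3⟩
      · rw [Finset.disjoint_left]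
        intro p hp1 hp2
        rw [mem_filter, mem_Ioc] at hp1 hp2
        omega
    have h4 : ∑ p ∈ P, Real.log p ≤ P.card * Real.log (4 * k) := by
      rw [← nsmul_eq_mul]
      refine sum_le_card_nsmul _ _ _ fun p hp => ?_
      rw [hP, mem_filter, mem_Ioc] at hp
      apply Real.log_le_log
      · have : 0 < p := by omega
        exact_mod_cast this
      · exact_mod_cast hp.1.2
    -- estimates with `t = √k`
    set t := Real.sqrt k with ht
    have htk : t ^ 2 = k := Real.sq_sqrt hk0.le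
    have ht0 : 0 ≤ t := Real.sqrt_nonneg _
    have ht100 : 100 ≤ t := by
      rw [ht]
      apply Real.le_sqrt_of_sq_le
      linarith
    have hs4 : Real.sqrt ((4 * k : ℕ) : ℝ) = 2 * t := by
      push_cast
      rw [Real.sqrt_mul (by norm_num), show (4 : ℝ) = 2 ^ 2 by norm_num, Real.sqrt_sq (by norm_num)]
    have hlog2 := Real.log_two_gt_d9
    have hlog2' := Real.log_two_lt_d9
    have hlog4 : Real.log 4 = 2 * Real.log 2 := by
      rw [show (4 : ℝ) = 2 ^ 2 by norm_num, Real.log_pow]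
      norm_num
    have hL : Real.log (4 * k) ≤ 8.84 + t / 50 := by
      have e1 : (4 : ℝ) * k = (200 * (t / 100)) ^ 2 := by
        rw [← htk]; ring
      rw [e1, Real.log_pow, Real.log_mul (by norm_num) (by positivity)]
      have e2 : Real.log (t / 100) ≤ t / 100 - 1 := Real.log_le_sub_one_of_pos (by positivity)
      have e3 : Real.log 200 ≤ 5.42 := by
        have : (200 : ℝ) = 2 ^ 7 * 1.5625 := by norm_num
        rw [this, Real.log_mul (by norm_num) (by norm_num), Real.log_pow]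
        have e4 : Real.log 1.5625 ≤ 1.5625 - 1 := Real.log_le_sub_one_of_pos (by norm_num)
        push_cast
        nlinarith
      push_cast
      linarith
    have hL0 : 0 < Real.log (4 * k) := Real.log_pos (by linarith)
    have hL1 : Real.log (((4 * k : ℕ) : ℝ) + 1) ≤ Real.log (4 * k) + 1 := by
      push_cast
      have e1 : (4 : ℝ) * k + 1 = (4 * k) * (1 + 1 / (4 * k)) := by
        field_simp
      rw [e1, Real.log_mul (by positivity) (by positivity)]
      have e2 : Real.log (1 + 1 / (4 * (k : ℝ))) ≤ (1 + 1 / (4 * (k : ℝ))) - 1 :=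
        Real.log_le_sub_one_of_pos (by positivity)
      have e3 : 1 / (4 * (k : ℝ)) ≤ 1 := by
        rw [div_le_one (by positivity)]
        linarith
      linarith
    rw [hs4] at h1
    have hcast : ((4 * k : ℕ) : ℝ) = 4 * (k : ℝ) := by push_cast; ring
    rw [h3, hcast] at h1
    rw [hcast] at hL1
    have h5 : 4 * (k : ℝ) * Real.log 2 - (Real.log (4 * k) + 1) - 2 * (2 * t) * Real.log (4 * k) ≤
        2 * Real.log 2 * k + P.card * Real.log (4 * k) := by
      rw [hlog4] at h2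
      linarith
    -- if there were fewer primes
    by_contra hcon
    push Not at hcon
    have h6 : (P.card : ℝ) * Real.log (4 * k) ≤ 420 * Real.log (4 * k) := by gcongr
    have h7 : 2 * Real.log 2 * k ≤ (421 + 4 * t) * Real.log (4 * k) + 1 := by linarith
    have h8 : (421 + 4 * t) * Real.log (4 * k) ≤ (421 + 4 * t) * (8.84 + t / 50) := by
      gcongr
    have h9 : 1.386 * t ^ 2 ≤ 2 * Real.log 2 * k := by
      rw [← htk]
      nlinarith
    nlinarith
  -- the sum
  have h1 : ∀ q ∈ P, (1 / 4 : ℝ) ^ (108 / 25 : ℝ) ≤ ((k : ℝ) / q) ^ (108 / 25 : ℝ) := by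
    intro q hq
    rw [hP, mem_filter, mem_Ioc] at hq
    have hq0 : (0 : ℝ) < q := by
      have : 0 < q := by omega
      exact_mod_cast this
    apply Real.rpow_le_rpow (by norm_num) _ (by norm_num)
    rw [div_le_div_iff₀ (by norm_num) hq0]
    have : (q : ℝ) ≤ 4 * k := by exact_mod_cast hq.1.2
    linarith
  have h2 : (1 / 420 : ℝ) ≤ (1 / 4 : ℝ) ^ (108 / 25 : ℝ) := by
    apply le_of_pow_le_pow_left₀ (n := 25) (by norm_num) (by positivity)
    rw [← Real.rpow_natCast ((1 / 4 : ℝ) ^ (108 / 25 : ℝ)), ← Real.rpow_mul (by positivity)]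
    have h7 : (108 / 25 : ℝ) * ((25 : ℕ) : ℝ) = ((108 : ℕ) : ℝ) := by norm_num
    rw [h7, Real.rpow_natCast]
    norm_num
  calc (1 : ℝ) = 420 * (1 / 420) := by norm_num
    _ ≤ P.card * (1 / 420) := by gcongr
    _ = ∑ q ∈ P, (1 / 420 : ℝ) := by rw [sum_const, nsmul_eq_mul]
    _ ≤ ∑ q ∈ P, ((k : ℝ) / q) ^ (108 / 25 : ℝ) :=
        sum_le_sum fun q hq => h2.trans (h1 q hq)

theorem one_add_sum_le_sig (r : ℝ) (P : Finset ℕ) (hP : ∀ q ∈ P, q.Prime) :
    1 + ∑ q ∈ P, (q : ℝ) ^ (-r) ≤ sig r (∏ q ∈ P, q) := by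
  have h0 : ∏ q ∈ P, q ≠ 0 := prod_ne_zero_iff.2 fun q hq => (hP q hq).ne_zero
  have h1 : 1 ∉ P := fun h => (hP 1 h).ne_one rfl
  have h2 : 1 + ∑ q ∈ P, (q : ℝ) ^ (-r) = ∑ q ∈ insert 1 P, (q : ℝ) ^ (-r) := by
    rw [sum_insert h1]
    simp
  rw [h2]
  unfold sig
  refine sum_le_sum_of_subset_of_nonneg ?_ fun d _ _ => by positivity
  intro d hd
  rw [Nat.mem_divisors]
  rcases mem_insert.1 hd with rfl | hd
  · exact ⟨one_dvd _, h0⟩
  · exact ⟨dvd_prod_of_mem _ hd, h0⟩

theorem Hcond {r : ℝ} (hr : r ≤ 108 / 25) (k : ℕ) (hk : 23 ≤ k) :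
    ∃ b ∈ R r (k + 1), 1 + (k : ℝ) ^ (-r) ≤ b := by
  obtain ⟨P, hP, hsum⟩ : ∃ P : Finset ℕ, (∀ q ∈ P, q.Prime ∧ k < q) ∧
      1 ≤ ∑ q ∈ P, ((k : ℝ) / q) ^ (108 / 25 : ℝ) := by
    by_cases h : k < 10000
    · exact small_k k hk h
    · exact large_k k (not_lt.1 h)
  have hk0 : (0 : ℝ) < k := by
    have : 0 < k := by omega
    exact_mod_cast this
  refine ⟨sig r (∏ q ∈ P, q), ⟨∏ q ∈ P, q, ?_, ?_, rfl⟩, ?_⟩
  · exact prod_pos fun q hq => (hP q hq).1.pos
  · intro q hq h
    obtain ⟨p, hp, h1⟩ := (Prime.dvd_finsetProd_iff hq.prime _).1 h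
    have := (Nat.prime_dvd_prime_iff_eq hq (hP p hp).1).1 h1
    have := (hP p hp).2
    omega
  · refine le_trans ?_ (one_add_sum_le_sig r P fun q hq => (hP q hq).1)
    have h1 : ∀ q ∈ P, (k : ℝ) ^ (-r) * ((k : ℝ) / q) ^ (108 / 25 : ℝ) ≤ (q : ℝ) ^ (-r) := by
      intro q hq
      have hq0 : (0 : ℝ) < q := by exact_mod_cast (hP q hq).1.pos
      have hkq : (k : ℝ) / q ≤ 1 := by
        rw [div_le_one hq0]
        exact_mod_cast (hP q hq).2.le
      calc (k : ℝ) ^ (-r) * ((k : ℝ) / q) ^ (108 / 25 : ℝ)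
          ≤ (k : ℝ) ^ (-r) * ((k : ℝ) / q) ^ r := by
            have := Real.rpow_le_rpow_of_exponent_ge (div_pos hk0 hq0) hkq hr
            gcongr
        _ = (q : ℝ) ^ (-r) := by
            rw [Real.div_rpow hk0.le hq0.le, Real.rpow_neg hk0.le, Real.rpow_neg hq0.le]
            have := (Real.rpow_pos_of_pos hk0 r).ne'
            field_simp
    have h2 : (k : ℝ) ^ (-r) * 1 ≤ ∑ q ∈ P, (q : ℝ) ^ (-r) := by
      calc (k : ℝ) ^ (-r) * 1 ≤ (k : ℝ) ^ (-r) * ∑ q ∈ P, ((k : ℝ) / q) ^ (108 / 25 : ℝ) := by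
            gcongr
        _ = ∑ q ∈ P, (k : ℝ) ^ (-r) * ((k : ℝ) / q) ^ (108 / 25 : ℝ) := mul_sum _ _ _
        _ ≤ _ := sum_le_sum h1
    linarith

end Pool.Agent.V1114.DC
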