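import Pool.Agent.V1114.DC.Hcond

/-!
# The numbers of components at the exponents 56/13 and 108/25
-/

set_option autoImplicit false

namespace Pool.Agent.V1114.DC

open Finset

/-- the bounds `xl ≤ D p ^ (-a/b) ≤ xu` in integer form -/
def okX (a b D p xl xu : ℕ) : Bool :=
  Nat.ble (xl ^ b * p ^ a) (D ^ b) && Nat.ble (D ^ b) (xu ^ b * p ^ a) && Nat.blt xu D

theorem rpow_pow {a b p : ℕ} (hb : 0 < b) (hp : 0 < p) :
    ((p : ℝ) ^ (-((a : ℝ) / b))) ^ b = 1 / (p : ℝ) ^ a := by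
  have hb' : (b : ℝ) ≠ 0 := by positivity
  rw [← Real.rpow_natCast, ← Real.rpow_mul (by positivity)]
  have : -((a : ℝ) / b) * b = -(a : ℝ) := by field_simp
  rw [this, Real.rpow_neg (by positivity), Real.rpow_natCast, one_div]

theorem okX_lo {a b D p xl xu : ℕ} (hb : 0 < b) (hp : 0 < p) (h : okX a b D p xl xu = true) :
    (xl : ℝ) ≤ (p : ℝ) ^ (-((a : ℝ) / b)) * D := by
  rw [okX, Bool.and_eq_true, Bool.and_eq_true, Nat.ble_eq, Nat.ble_eq, Nat.blt_eq] at h
  apply le_of_pow_le_pow_left₀ (n := b) hb.ne' (by positivity)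
  rw [mul_pow, rpow_pow hb hp, div_mul_eq_mul_div, one_mul, le_div_iff₀ (by positivity)]
  exact_mod_cast h.1.1

theorem okX_hi {a b D p xl xu : ℕ} (hb : 0 < b) (hp : 0 < p) (h : okX a b D p xl xu = true) :
    (p : ℝ) ^ (-((a : ℝ) / b)) * D ≤ xu := by
  rw [okX, Bool.and_eq_true, Bool.and_eq_true, Nat.ble_eq, Nat.ble_eq, Nat.blt_eq] at h
  apply le_of_pow_le_pow_left₀ (n := b) hb.ne' (by positivity)
  rw [mul_pow, rpow_pow hb hp, div_mul_eq_mul_div, one_mul, div_le_iff₀ (by positivity)]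
  exact_mod_cast h.1.2

theorem okX_lt {a b D p xl xu : ℕ} (h : okX a b D p xl xu = true) : xu < D := by
  rw [okX, Bool.and_eq_true, Bool.and_eq_true, Nat.ble_eq, Nat.ble_eq, Nat.blt_eq] at h
  exact h.2

/-- all outer steps -/
def runO (D : ℕ) : List (ℕ × ℕ × ℕ × ℕ) → List (ℕ × ℕ) → List (ℕ × ℕ)
  | [], L => L
  | e :: es, L => runO D es (norm (rawO D e.2.1 e.2.2.1 e.2.2.2 L))

/-- all inner steps -/
def runI (D : ℕ) : List (ℕ × ℕ × ℕ × ℕ) → List (ℕ × ℕ) → List (ℕ × ℕ)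
  | [], L => L
  | e :: es, L => runI D es (norm (rawI D e.2.1 e.2.2.1 e.2.2.2 L))

/-- the conditions for the inner steps -/
def chkI (D : ℕ) : List (ℕ × ℕ × ℕ × ℕ) → List (ℕ × ℕ) → Bool
  | [], _ => true
  | e :: es, L => okI D e.2.1 e.2.2.1 e.2.2.2 L &&
      chkI D es (norm (rawI D e.2.1 e.2.2.1 e.2.2.2 L))

/-- the conditions for the bounds -/
def okEs (a b D : ℕ) (es : List (ℕ × ℕ × ℕ × ℕ)) : Bool :=
  es.all fun e => okX a b D e.1 e.2.1 e.2.2.1

theorem rpow_lt_one' {a b p : ℕ} (ha : 0 < a) (hb : 0 < b) (hp : p.Prime) :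
    (p : ℝ) ^ (-((a : ℝ) / b)) < 1 := by
  apply Real.rpow_lt_one_of_one_lt_of_neg (by exact_mod_cast hp.one_lt)
  have : (0 : ℝ) < (a : ℝ) / b := by positivity
  linarith

theorem runO_spec {a b D : ℕ} (ha : 0 < a) (hb : 0 < b) (hD : 0 < D) :
    ∀ (es : List (ℕ × ℕ × ℕ × ℕ)) (L : List (ℕ × ℕ)), okEs a b D es = true →
    (∀ e ∈ es, e.1.Prime) → (es.map Prod.fst).Nodup →
    Out D (B ((a : ℝ) / b) (es.map Prod.fst)) L → Out D (B ((a : ℝ) / b) []) (runO D es L) := by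
  intro es
  induction es with
  | nil => intro L _ _ _ h; exact h
  | cons e es ih =>
    intro L h1 h2 h3 h4
    rw [okEs, List.all_cons, Bool.and_eq_true] at h1
    rw [List.map_cons, List.nodup_cons] at h3
    have hp := h2 e (by simp)
    rw [runO]
    refine ih _ h1.2 (fun e' he' => h2 e' (by simp [he'])) h3.2 (Out.norm ?_)
    rw [List.map_cons] at h4
    refine Out.step e.2.2.2 hD hp ?_ h3.1 (rpow_lt_one' ha hb hp) (okX_lo hb hp.pos h1.1)
      (okX_hi hb hp.pos h1.1) (okX_lt h1.1) h4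
    intro q hq
    obtain ⟨e', he', rfl⟩ := List.mem_map.1 hq
    exact h2 e' (by simp [he'])

theorem runI_spec {a b D : ℕ} (ha : 0 < a) (hb : 0 < b) (hD : 0 < D) :
    ∀ (es : List (ℕ × ℕ × ℕ × ℕ)) (L : List (ℕ × ℕ)), okEs a b D es = true →
    chkI D es L = true → (∀ e ∈ es, e.1.Prime) → (es.map Prod.fst).Nodup →
    Inn D (B ((a : ℝ) / b) (es.map Prod.fst)) L → Inn D (B ((a : ℝ) / b) []) (runI D es L) := by
  intro es
  induction es with
  | nil => intro L _ _ _ _ h; exact h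
  | cons e es ih =>
    intro L h1 h0 h2 h3 h4
    rw [okEs, List.all_cons, Bool.and_eq_true] at h1
    rw [chkI, Bool.and_eq_true] at h0
    rw [List.map_cons, List.nodup_cons] at h3
    have hp := h2 e (by simp)
    have hD' : (0 : ℝ) < D := by exact_mod_cast hD
    rw [runI]
    refine ih _ h1.2 h0.2 (fun e' he' => h2 e' (by simp [he'])) h3.2 (Inn.norm hD' ?_)
    rw [List.map_cons] at h4
    refine Inn.step e.2.2.2 hD hp ?_ h3.1 (rpow_lt_one' ha hb hp) (okX_lo hb hp.pos h1.1)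
      (okX_hi hb hp.pos h1.1) h0.1 h4
    intro q hq
    obtain ⟨e', he', rfl⟩ := List.mem_map.1 hq
    exact h2 e' (by simp [he'])

/-! ### The base cases -/

/-- the primes below 23 -/
def smalls : List ℕ := [19, 17, 13, 11, 7, 5, 3, 2]

theorem B_smalls (r : ℝ) : B r smalls = R r 23 := by
  have h1 : ∀ q < 23, q.Prime → q ∈ smalls := by
    intro q hq hp
    unfold smalls
    interval_cases q <;> first | decide | (exfalso; revert hp; norm_num)
  have h2 : ∀ p ∈ smalls, p.Prime ∧ p < 23 := by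
    intro p hp
    simp only [smalls, List.mem_cons, List.not_mem_nil, or_false] at hp
    rcases hp with rfl | rfl | rfl | rfl | rfl | rfl | rfl | rfl <;> norm_num
  ext y
  constructor
  · rintro ⟨n, hn, h, rfl⟩
    refine ⟨n, hn, fun q hq hqn => ?_, rfl⟩
    by_contra hcon
    exact h q (h1 q (not_le.1 hcon) hq) hqn
  · rintro ⟨n, hn, h, rfl⟩
    refine ⟨n, hn, fun p hp hpn => ?_, rfl⟩
    have := h p (h2 p hp).1 hpn
    have := (h2 p hp).2
    omega

/-- the numbers `d` with `2 ≤ d < 200` without prime factors below 23 are in the list -/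
def okL (qs : List (ℕ × ℕ)) : Bool :=
  (List.range 200).all fun d => Nat.ble d 1 || (smalls.any fun p => Nat.beq (d % p) 0) ||
    (qs.map Prod.fst).elem d

theorem sum_union_le' {f : ℕ → ℝ} (hf : ∀ d, 0 ≤ f d) (s t : Finset ℕ) :
    ∑ d ∈ s ∪ t, f d ≤ ∑ d ∈ s, f d + ∑ d ∈ t, f d := by
  have h1 := sum_union_inter (s₁ := s) (s₂ := t) (f := f)
  have h2 : 0 ≤ ∑ d ∈ s ∩ t, f d := sum_nonneg fun d _ => hf d
  linarith

theorem list_hi (f : ℕ → ℝ) (D : ℝ) : ∀ (qs : List (ℕ × ℕ)), (∀ e ∈ qs, f e.1 * D ≤ e.2) →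
    ((qs.map (f ∘ Prod.fst)).sum) * D ≤ (((qs.map Prod.snd).sum : ℕ) : ℝ) := by
  intro qs
  induction qs with
  | nil => intro _; simp
  | cons e qs ih =>
    intro h
    rw [List.map_cons, List.sum_cons, List.map_cons, List.sum_cons, add_mul, Nat.cast_add]
    have h1 := h e (by simp)
    have h2 := ih fun e' he' => h e' (by simp [he'])
    simp only [Function.comp_apply]
    linarith

theorem list_lo (f : ℕ → ℝ) (D : ℝ) : ∀ (qs : List (ℕ × ℕ)), (∀ e ∈ qs, (e.2 : ℝ) ≤ f e.1 * D) →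
    (((qs.map Prod.snd).sum : ℕ) : ℝ) ≤ ((qs.map (f ∘ Prod.fst)).sum) * D := by
  intro qs
  induction qs with
  | nil => intro _; simp
  | cons e qs ih =>
    intro h
    rw [List.map_cons, List.sum_cons, List.map_cons, List.sum_cons, add_mul, Nat.cast_add]
    have h1 := h e (by simp)
    have h2 := ih fun e' he' => h e' (by simp [he'])
    simp only [Function.comp_apply]
    linarith

/-- upper bound for the values at integers without prime factors below 23 -/
def topO (D xM : ℕ) (qs : List (ℕ × ℕ)) : ℕ :=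
  D + (qs.map Prod.snd).sum + (xM * 200 ^ 4 / (3 * 199 ^ 3) + 1)

theorem top_le {r : ℝ} (hr : 4 ≤ r) {D xM : ℕ} {qs : List (ℕ × ℕ)} (hD : 0 < D)
    (hL : okL qs = true) (hnd : (qs.map Prod.fst).Nodup)
    (hqs : ∀ e ∈ qs, (e.1 : ℝ) ^ (-r) * D ≤ e.2) (hM : ((200 : ℕ) : ℝ) ^ (-r) * D ≤ xM)
    {y : ℝ} (hy : y ∈ B r smalls) : y * D ≤ topO D xM qs := by
  have hD' : (0 : ℝ) < D := by exact_mod_cast hD
  obtain ⟨n, hn, hd, rfl⟩ := hy
  have hsub : n.divisors ⊆ {1} ∪ ((qs.map Prod.fst).toFinset ∪ Ico 200 (n + 201)) := by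
    intro d hdn
    rw [Nat.mem_divisors] at hdn
    rw [mem_union, mem_singleton, mem_union, mem_Ico, List.mem_toFinset]
    by_cases h1 : d = 1
    · exact Or.inl h1
    right
    by_cases h2 : d < 200
    · left
      rw [okL, List.all_eq_true] at hL
      have h3 := hL d (List.mem_range.2 h2)
      simp only [Bool.or_eq_true, Nat.ble_eq, List.any_eq_true, Nat.beq_eq,
        List.elem_eq_mem, decide_eq_true_eq] at h3
      rcases h3 with (h3 | ⟨p, hp, h3⟩) | h3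
      · have := Nat.pos_of_dvd_of_pos hdn.1 hn
        omega
      · exact absurd ((Nat.dvd_of_mod_eq_zero h3).trans hdn.1) (hd p hp)
      · exact h3
    · right
      have := Nat.le_of_dvd hn hdn.1
      omega
  have h1 : sig r n ≤ 1 + (∑ d ∈ (qs.map Prod.fst).toFinset, (d : ℝ) ^ (-r) +
      ∑ d ∈ Ico 200 (n + 201), (d : ℝ) ^ (-r)) := by
    unfold sig
    refine (sum_le_sum_of_subset_of_nonneg hsub fun d _ _ => by positivity).trans ?_
    refine (sum_union_le' (fun d => by positivity) _ _).trans ?_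
    rw [sum_singleton]
    simp only [Nat.cast_one, Real.one_rpow]
    have := sum_union_le' (f := fun d : ℕ => (d : ℝ) ^ (-r)) (fun d => by positivity)
      (qs.map Prod.fst).toFinset (Ico 200 (n + 201))
    linarith
  have h2 : (∑ d ∈ (qs.map Prod.fst).toFinset, (d : ℝ) ^ (-r)) * D ≤
      (((qs.map Prod.snd).sum : ℕ) : ℝ) := by
    rw [List.sum_toFinset _ hnd, List.map_map]
    exact list_hi (fun d : ℕ => (d : ℝ) ^ (-r)) D qs hqs
  have h3 : (∑ d ∈ Ico 200 (n + 201), (d : ℝ) ^ (-r)) * D ≤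
      ((xM * 200 ^ 4 / (3 * 199 ^ 3) + 1 : ℕ) : ℝ) := by
    have e1 : ∀ d ∈ Ico 200 (n + 201), (d : ℝ) ^ (-r) ≤
        (1 / (d : ℝ) ^ 4) * (200 ^ 4 * (200 : ℝ) ^ (-r)) := by
      intro d hd
      rw [mem_Ico] at hd
      have hd0 : (0 : ℝ) < d := by
        have : 0 < d := by omega
        exact_mod_cast this
      have hd200 : (200 : ℝ) ≤ d := by exact_mod_cast hd.1
      have e2 : (d : ℝ) ^ (-r) = (d : ℝ) ^ (-(r - 4)) * (1 / (d : ℝ) ^ 4) := by
        have : (1 : ℝ) / (d : ℝ) ^ 4 = (d : ℝ) ^ (-(4 : ℝ)) := by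
          rw [Real.rpow_neg (by positivity), one_div]
          norm_cast
        rw [this, ← Real.rpow_add hd0]
        congr 1
        ring
      have e3 : (200 : ℝ) ^ 4 * (200 : ℝ) ^ (-r) = (200 : ℝ) ^ (-(r - 4)) := by
        have : (200 : ℝ) ^ 4 = (200 : ℝ) ^ (4 : ℝ) := by norm_cast
        rw [this, ← Real.rpow_add (by norm_num)]
        congr 1
        ring
      rw [e2, e3, mul_comm]
      have e4 : (d : ℝ) ^ (-(r - 4)) ≤ (200 : ℝ) ^ (-(r - 4)) :=
        Real.rpow_le_rpow_of_nonpos (by norm_num) hd200 (by linarith)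
      gcongr
    have e2 := sum_le_sum e1
    rw [← sum_mul] at e2
    have e3 := tail4 200 (by norm_num) (n + 201) (by omega)
    have e4 : (0 : ℝ) ≤ 1 / (3 * (((n + 201 : ℕ) : ℝ) - 1) ^ 3) := by
      have h2 : (0 : ℝ) ≤ ((n + 201 : ℕ) : ℝ) - 1 := by
        push_cast
        have : (0 : ℝ) ≤ n := by positivity
        linarith
      exact div_nonneg zero_le_one (mul_nonneg (by norm_num) (pow_nonneg h2 3))
    have e5 : ∑ d ∈ Ico 200 (n + 201), 1 / (d : ℝ) ^ 4 ≤ 1 / (3 * 199 ^ 3) := by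
      have e51 : (1 : ℝ) / (3 * (((200 : ℕ) : ℝ) - 1) ^ 3) = 1 / (3 * 199 ^ 3) := by norm_num
      rw [e51] at e3
      linarith
    have e6 : (0 : ℝ) < 200 ^ 4 * (200 : ℝ) ^ (-r) := by positivity
    have e7 : (∑ d ∈ Ico 200 (n + 201), (d : ℝ) ^ (-r)) * D ≤
        (1 / (3 * 199 ^ 3)) * (200 ^ 4 * xM) := by
      calc (∑ d ∈ Ico 200 (n + 201), (d : ℝ) ^ (-r)) * D
          ≤ (1 / (3 * 199 ^ 3)) * (200 ^ 4 * (200 : ℝ) ^ (-r)) * D := by
            gcongr
            refine e2.trans ?_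
            gcongr
        _ = (1 / (3 * 199 ^ 3)) * (200 ^ 4 * ((200 : ℝ) ^ (-r) * D)) := by ring
        _ ≤ _ := by
            push_cast at hM
            gcongr
    refine e7.trans ?_
    have e8 : xM * 200 ^ 4 < (3 * 199 ^ 3) * (xM * 200 ^ 4 / (3 * 199 ^ 3) + 1) :=
      Nat.lt_mul_div_succ _ (by norm_num)
    have e9 : ((xM * 200 ^ 4 : ℕ) : ℝ) ≤
        (((3 * 199 ^ 3) * (xM * 200 ^ 4 / (3 * 199 ^ 3) + 1) : ℕ) : ℝ) := by
      exact_mod_cast e8.le
    rw [Nat.cast_mul (3 * 199 ^ 3)] at e9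
    push_cast at e9 ⊢
    rw [one_div, inv_mul_le_iff₀ (by norm_num)]
    linarith
  have h4 : sig r n * D ≤ (1 + (∑ d ∈ (qs.map Prod.fst).toFinset, (d : ℝ) ^ (-r) +
      ∑ d ∈ Ico 200 (n + 201), (d : ℝ) ^ (-r))) * D := by gcongr
  unfold topO
  push_cast at h2 h3 ⊢
  linarith

theorem Out_base {r : ℝ} (hr : 4 ≤ r) {D xM : ℕ} {qs : List (ℕ × ℕ)} (hD : 0 < D)
    (hL : okL qs = true) (hnd : (qs.map Prod.fst).Nodup)
    (hqs : ∀ e ∈ qs, (e.1 : ℝ) ^ (-r) * D ≤ e.2) (hM : ((200 : ℕ) : ℝ) ^ (-r) * D ≤ xM) :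
    Out D (B r smalls) [(D, topO D xM qs)] := by
  have hD' : (0 : ℝ) < D := by exact_mod_cast hD
  have hone : (1 : ℝ) ∈ B r smalls := by
    rw [B_smalls]
    exact one_mem_R r 23
  constructor
  · intro y hy
    refine ⟨_, List.mem_singleton_self _, ?_, top_le hr hD hL hnd hqs hM hy⟩
    have : 1 ≤ y := by
      rw [B_smalls] at hy
      exact R_one_le hy
    simp only
    nlinarith
  · intro I hI
    rw [List.mem_singleton] at hI
    subst hI
    exact ⟨1, hone, by simp, top_le hr hD hL hnd hqs hM hone⟩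

/-- lower bound for the supremum of the values at integers without prime factors below 23 -/
def topI (D : ℕ) (qs : List (ℕ × ℕ)) : ℕ := D + (qs.map Prod.snd).sum

theorem Inn_base {r : ℝ} (hr : 4 ≤ r) (hr2 : r ≤ 108 / 25) {D : ℕ} {qs : List (ℕ × ℕ)}
    (hD : 0 < D) (hnd : (qs.map Prod.fst).Nodup) (hpr : ∀ e ∈ qs, e.1.Prime ∧ 23 ≤ e.1)
    (hqs : ∀ e ∈ qs, (e.2 : ℝ) ≤ (e.1 : ℝ) ^ (-r) * D) :
    Inn D (B r smalls) [(D, topI D qs)] := by
  have hD' : (0 : ℝ) < D := by exact_mod_cast hD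
  have H : ∀ k, 23 ≤ k → k.Prime → ∃ b ∈ R r (k + 1), 1 + (k : ℝ) ^ (-r) ≤ b :=
    fun k hk _ => Hcond hr2 k hk
  refine ⟨[closure (B r smalls)], List.Forall₂.cons ?_ List.Forall₂.nil,
    fun y hy => ⟨_, List.mem_singleton_self _, subset_closure hy⟩⟩
  rw [B_smalls]
  refine ⟨isClosed_closure, R_preconnected hr 23 H, subset_rfl, ?_, ?_⟩
  · simp [topI]
  · intro y hy1 hy2
    set P := (qs.map Prod.fst).toFinset with hP
    have hPmem : ∀ q ∈ P, q.Prime ∧ 23 ≤ q := by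
      intro q hq
      rw [hP, List.mem_toFinset] at hq
      obtain ⟨e, he, rfl⟩ := List.mem_map.1 hq
      exact hpr e he
    have hb : sig r (∏ q ∈ P, q) ∈ R r 23 := by
      refine ⟨_, prod_pos fun q hq => (hPmem q hq).1.pos, ?_, rfl⟩
      intro q hq h
      obtain ⟨p, hp, h1⟩ := (Prime.dvd_finsetProd_iff hq.prime _).1 h
      have := (Nat.prime_dvd_prime_iff_eq hq (hPmem p hp).1).1 h1
      have := (hPmem p hp).2
      omega
    refine R_Icc hr 23 H hb ?_ ?_
    · simp only at hy1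
      by_contra hcon
      push Not at hcon
      nlinarith
    · have h1 := one_add_sum_le_sig r P fun q hq => (hPmem q hq).1
      refine le_trans ?_ h1
      have h2 : (((qs.map Prod.snd).sum : ℕ) : ℝ) ≤ (∑ d ∈ P, (d : ℝ) ^ (-r)) * D := by
        rw [hP, List.sum_toFinset _ hnd, List.map_map]
        exact list_lo (fun d : ℕ => (d : ℝ) ^ (-r)) D qs hqs
      have h3 : y * D ≤ (1 + ∑ d ∈ P, (d : ℝ) ^ (-r)) * D := by
        refine hy2.trans ?_
        simp only [topI]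
        push_cast at h2 ⊢
        linarith
      exact le_of_mul_le_mul_right h3 hD'

end Pool.Agent.V1114.DC
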