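import Pool.Agent.V1114.DC.Comp

/-!
# The step from one prime to the next, with integer arithmetic
-/

set_option autoImplicit false

namespace Pool.Agent.V1114.DC

open Finset

/-- lower bounds for `D f_j` -/
def fl (D x : ℕ) : ℕ → ℕ
  | 0 => D
  | j + 1 => D + x * fl D x j / D

/-- upper bounds for `D f_j` -/
def fu (D x : ℕ) : ℕ → ℕ
  | 0 => D
  | j + 1 => D + (x * fu D x j / D + 1)

theorem prod_lo {D a b : ℕ} {u v : ℝ} (hD : 0 < D) (hu : 0 ≤ u) (_hv : 0 ≤ v)
    (ha : (a : ℝ) ≤ u * D) (hb : (b : ℝ) ≤ v * D) : ((a * b / D : ℕ) : ℝ) ≤ u * v * D := by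
  have hD' : (0 : ℝ) < D := by exact_mod_cast hD
  refine (Nat.cast_div_le).trans ?_
  rw [div_le_iff₀ hD']
  push_cast
  have h1 : (a : ℝ) * b ≤ (u * D) * (v * D) := by
    apply mul_le_mul ha hb (by positivity) (by positivity)
  linarith

theorem prod_hi {D a b : ℕ} {u v : ℝ} (hD : 0 < D) (_hu : 0 ≤ u) (hv : 0 ≤ v)
    (ha : u * D ≤ a) (hb : v * D ≤ b) : u * v * D ≤ ((a * b / D + 1 : ℕ) : ℝ) := by
  have hD' : (0 : ℝ) < D := by exact_mod_cast hD
  have h0 : a * b < D * (a * b / D + 1) := Nat.lt_mul_div_succ _ hD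
  have h0' : (a : ℝ) * b ≤ D * ((a * b / D + 1 : ℕ) : ℝ) := by exact_mod_cast h0.le
  have h1 : (u * D) * (v * D) ≤ (a : ℝ) * b := by
    apply mul_le_mul ha hb (by positivity) (by positivity)
  have h2 : (u * v * D) * D ≤ ((a * b / D + 1 : ℕ) : ℝ) * D := by linarith
  exact le_of_mul_le_mul_right h2 hD'

theorem fl_le {D xl : ℕ} {x : ℝ} (hD : 0 < D) (hx : 0 ≤ x) (h : (xl : ℝ) ≤ x * D) (j : ℕ) :
    (fl D xl j : ℝ) ≤ ff x j * D := by
  induction j with
  | zero => rw [ff_zero, fl]; simp
  | succ j ih =>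
    rw [ff_succ, fl]
    push_cast
    have h0 : 0 ≤ ff x j := zero_le_one.trans (one_le_ff hx j)
    have := prod_lo hD hx h0 h ih
    linarith

theorem le_fu {D xu : ℕ} {x : ℝ} (hD : 0 < D) (hx : 0 ≤ x) (h : x * D ≤ xu) (j : ℕ) :
    ff x j * D ≤ (fu D xu j : ℝ) := by
  induction j with
  | zero => rw [ff_zero, fu]; simp
  | succ j ih =>
    rw [ff_succ, fu]
    have h0 : 0 ≤ ff x j := zero_le_one.trans (one_le_ff hx j)
    have := prod_hi hD hx h0 h ih
    push_cast at this ⊢
    linarith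

theorem finf_lo {D xl : ℕ} {x : ℝ} (hD : 0 < D) (hx1 : x < 1)
    (h : (xl : ℝ) ≤ x * D) : ((D * D / (D - xl) : ℕ) : ℝ) ≤ 1 / (1 - x) * D := by
  have hD' : (0 : ℝ) < D := by exact_mod_cast hD
  have hlt : xl < D := by
    have : (xl : ℝ) < D := by nlinarith
    exact_mod_cast this
  refine (Nat.cast_div_le).trans ?_
  rw [Nat.cast_sub hlt.le]
  push_cast
  have h1 : (0 : ℝ) < D - x * D := by nlinarith
  have h2 : (D : ℝ) - x * D ≤ D - xl := by linarith
  have h3 : 1 / (1 - x) * D = (D : ℝ) * D / (D - x * D) := by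
    have : (1 - x) ≠ 0 := by linarith
    field_simp
  rw [h3]
  gcongr

theorem finf_hi {D xu : ℕ} {x : ℝ} (hD : 0 < D) (_hx : 0 ≤ x) (hxu : xu < D)
    (h : x * D ≤ xu) : 1 / (1 - x) * D ≤ ((D * D / (D - xu) + 1 : ℕ) : ℝ) := by
  have hD' : (0 : ℝ) < D := by exact_mod_cast hD
  have hxu' : (xu : ℝ) < D := by exact_mod_cast hxu
  have hx1 : x < 1 := by
    by_contra hcon
    push Not at hcon
    nlinarith
  have h1 : (0 : ℝ) < D - xu := by linarith
  have h2 : (D : ℝ) - xu ≤ D - x * D := by linarith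
  have h3 : 1 / (1 - x) * D = (D : ℝ) * D / (D - x * D) := by
    have : (1 - x) ≠ 0 := by linarith
    field_simp
  rw [h3]
  have h4 : (D : ℝ) * D / (D - x * D) ≤ (D : ℝ) * D / (D - xu) := by gcongr
  refine h4.trans ?_
  rw [div_le_iff₀ h1]
  have h5 : D * D < (D - xu) * (D * D / (D - xu) + 1) :=
    Nat.lt_mul_div_succ _ (Nat.sub_pos_of_lt hxu)
  have h6 : ((D * D : ℕ) : ℝ) ≤ (((D - xu) * (D * D / (D - xu) + 1) : ℕ) : ℝ) := by
    exact_mod_cast h5.le
  push_cast [Nat.cast_sub hxu.le] at h6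
  push_cast
  linarith

theorem sig_pos (r : ℝ) {n : ℕ} (hn : 0 < n) : 0 < sig r n := by
  unfold sig
  refine Finset.sum_pos (fun d hd => ?_) ⟨1, by simp [hn.ne']⟩
  have : 0 < d := Nat.pos_of_mem_divisors hd
  positivity

theorem B_pos {r : ℝ} {F : List ℕ} {y : ℝ} (hy : y ∈ B r F) : 0 < y := by
  obtain ⟨n, hn, -, rfl⟩ := hy
  exact sig_pos r hn

/-- outer intervals before merging -/
def rawO (D xl xu J : ℕ) (L : List (ℕ × ℕ)) : List (ℕ × ℕ) :=
  ((List.range J).flatMap fun j =>
    L.map fun I => (fl D xl j * I.1 / D, fu D xu j * I.2 / D + 1)) ++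
  L.map fun I => (fl D xl J * I.1 / D, (D * D / (D - xu) + 1) * I.2 / D + 1)

/-- inner intervals before merging -/
def rawI (D xl xu J : ℕ) (L : List (ℕ × ℕ)) : List (ℕ × ℕ) :=
  ((List.range J).flatMap fun j =>
    L.map fun I => (fu D xu j * I.1 / D + 1, fl D xl j * I.2 / D)) ++
  L.map fun I => (fu D xu J * I.1 / D + 1, (D * D / (D - xl)) * I.2 / D)

theorem Out.step {D xl xu p : ℕ} {r : ℝ} (J : ℕ) {F : List ℕ} {L : List (ℕ × ℕ)} (hD : 0 < D)
    (hp : p.Prime) (hF : ∀ q ∈ F, q.Prime) (hpF : p ∉ F) (hx1 : (p : ℝ) ^ (-r) < 1)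
    (hl : (xl : ℝ) ≤ (p : ℝ) ^ (-r) * D) (hu : (p : ℝ) ^ (-r) * D ≤ xu) (hxu : xu < D)
    (h : Out D (B r (p :: F)) L) : Out D (B r F) (rawO D xl xu J L) := by
  set x : ℝ := (p : ℝ) ^ (-r) with hx
  have hx0 : 0 < x := Real.rpow_pos_of_pos (by exact_mod_cast hp.pos) _
  have hf0 : ∀ j, 0 ≤ ff x j := fun j => zero_le_one.trans (one_le_ff hx0.le j)
  have hinf0 : 0 ≤ 1 / (1 - x) := by
    have : 0 < 1 - x := by linarith
    positivity
  have hlo := fl_le hD hx0.le hl
  have hup := le_fu hD hx0.le hu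
  have hinf := finf_hi hD hx0.le hxu hu
  constructor
  · intro y hy
    obtain ⟨j, z, hz, rfl⟩ := (B_step r hp F hF hpF y).1 hy
    obtain ⟨I, hI, h1, h2⟩ := h.1 z hz
    have hz0 := (B_pos hz).le
    by_cases hj : j < J
    · refine ⟨(fl D xl j * I.1 / D, fu D xu j * I.2 / D + 1), ?_, ?_, ?_⟩
      · rw [rawO, List.mem_append]
        left
        rw [List.mem_flatMap]
        exact ⟨j, List.mem_range.2 hj, List.mem_map.2 ⟨I, hI, rfl⟩⟩
      · exact prod_lo hD (hf0 j) hz0 (hlo j) h1
      · exact prod_hi hD (hf0 j) hz0 (hup j) h2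
    · refine ⟨(fl D xl J * I.1 / D, (D * D / (D - xu) + 1) * I.2 / D + 1), ?_, ?_, ?_⟩
      · rw [rawO, List.mem_append]
        right
        exact List.mem_map.2 ⟨I, hI, rfl⟩
      · refine (prod_lo hD (hf0 J) hz0 (hlo J) h1).trans ?_
        have := ff_mono hx0.le (not_lt.1 hj)
        gcongr
      · refine le_trans ?_ (prod_hi hD hinf0 hz0 hinf h2)
        have := (ff_lt hx0 hx1 j).le
        gcongr
  · intro K hK
    rw [rawO, List.mem_append] at hK
    rcases hK with hK | hK
    · rw [List.mem_flatMap] at hK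
      obtain ⟨j, -, hK⟩ := hK
      obtain ⟨I, hI, rfl⟩ := List.mem_map.1 hK
      obtain ⟨z, hz, h1, h2⟩ := h.2 I hI
      have hz0 := (B_pos hz).le
      exact ⟨ff x j * z, (B_step r hp F hF hpF _).2 ⟨j, z, hz, rfl⟩,
        prod_lo hD (hf0 j) hz0 (hlo j) h1, prod_hi hD (hf0 j) hz0 (hup j) h2⟩
    · obtain ⟨I, hI, rfl⟩ := List.mem_map.1 hK
      obtain ⟨z, hz, h1, h2⟩ := h.2 I hI
      have hz0 := (B_pos hz).le
      refine ⟨ff x J * z, (B_step r hp F hF hpF _).2 ⟨J, z, hz, rfl⟩,
        prod_lo hD (hf0 J) hz0 (hlo J) h1, ?_⟩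
      refine le_trans ?_ (prod_hi hD hinf0 hz0 hinf h2)
      have := (ff_lt hx0 hx1 J).le
      gcongr

theorem f2_append {α β : Type} {R : α → β → Prop} {C C' : List α} {L L' : List β}
    (h : List.Forall₂ R C L) (h' : List.Forall₂ R C' L') :
    List.Forall₂ R (C ++ C') (L ++ L') := by
  induction h with
  | nil => exact h'
  | cons h1 _ ih => exact List.Forall₂.cons h1 ih

theorem f2_flatMap {α β γ : Type} {R : α → β → Prop} (f : γ → List α) (g : γ → List β)
    (l : List γ) (h : ∀ x ∈ l, List.Forall₂ R (f x) (g x)) :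
    List.Forall₂ R (l.flatMap f) (l.flatMap g) := by
  induction l with
  | nil => exact List.Forall₂.nil
  | cons a l ih =>
    rw [List.flatMap_cons, List.flatMap_cons]
    exact f2_append (h a (by simp)) (ih fun x hx => h x (by simp [hx]))

theorem f2_map {α β α' β' : Type} {R : α → β → Prop} {R' : α' → β' → Prop} (f : α → α')
    (g : β → β') {C : List α} {L : List β} (h : List.Forall₂ R C L)
    (hfg : ∀ a b, b ∈ L → R a b → R' (f a) (g b)) : List.Forall₂ R' (C.map f) (L.map g) := by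
  induction h with
  | nil => exact List.Forall₂.nil
  | cons h1 _ ih =>
    exact List.Forall₂.cons (hfg _ _ (by simp) h1) (ih fun a b hb => hfg a b (by simp [hb]))

/-- the condition checked for the inner intervals -/
def okI (D xl xu J : ℕ) (L : List (ℕ × ℕ)) : Bool :=
  ((rawI D xl xu J L).all fun I => Nat.ble I.1 I.2) &&
    L.all fun I => Nat.ble (fu D xu (J + 1) * I.1) (fl D xl J * I.2)

theorem Inn.step {D xl xu p : ℕ} {r : ℝ} (J : ℕ) {F : List ℕ} {L : List (ℕ × ℕ)} (hD : 0 < D)
    (hp : p.Prime) (hF : ∀ q ∈ F, q.Prime) (hpF : p ∉ F) (hx1 : (p : ℝ) ^ (-r) < 1)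
    (hl : (xl : ℝ) ≤ (p : ℝ) ^ (-r) * D) (hu : (p : ℝ) ^ (-r) * D ≤ xu)
    (hok : okI D xl xu J L = true)
    (h : Inn D (B r (p :: F)) L) : Inn D (B r F) (rawI D xl xu J L) := by
  rw [okI, Bool.and_eq_true, List.all_eq_true, List.all_eq_true] at hok
  obtain ⟨hok1, hok2⟩ := hok
  set x : ℝ := (p : ℝ) ^ (-r) with hx
  have hD' : (0 : ℝ) < D := by exact_mod_cast hD
  have hx0 : 0 < x := Real.rpow_pos_of_pos (by exact_mod_cast hp.pos) _
  have hf1 : ∀ j, 1 ≤ ff x j := fun j => one_le_ff hx0.le j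
  have hf0 : ∀ j, 0 < ff x j := fun j => zero_lt_one.trans_le (hf1 j)
  have hinf0 : 0 ≤ 1 / (1 - x) := by
    have : 0 < 1 - x := by linarith
    positivity
  have hlo := fl_le hD hx0.le hl
  have hup := le_fu hD hx0.le hu
  have hinf := finf_lo hD hx1 hl
  -- scaling maps the closure into the closure
  have hscale : ∀ j, ∀ c : Set ℝ, c ⊆ closure (B r (p :: F)) →
      (fun y => ff x j * y) '' c ⊆ closure (B r F) := by
    intro j c hc
    have hcont : Continuous fun y : ℝ => ff x j * y := continuous_const.mul continuous_id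
    refine (Set.image_mono hc).trans ((image_closure_subset_closure_image hcont).trans ?_)
    refine closure_mono ?_
    rintro _ ⟨z, hz, rfl⟩
    exact (B_step r hp F hF hpF _).2 ⟨j, z, hz, rfl⟩
  obtain ⟨C, hC, hcov⟩ := h
  refine ⟨((List.range J).flatMap fun j => C.map fun c => (fun y => ff x j * y) '' c) ++
    C.map fun c => closure (⋃ n : ℕ, (fun y => ff x (J + n) * y) '' c), ?_, ?_⟩
  · apply f2_append
    · apply f2_flatMap
      intro j hj
      refine f2_map _ _ hC ?_
      rintro c I hI ⟨g1, g2, g3, g4, g5⟩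
      have hmem : (fu D xu j * I.1 / D + 1, fl D xl j * I.2 / D) ∈ rawI D xl xu J L := by
        rw [rawI, List.mem_append]
        left
        rw [List.mem_flatMap]
        exact ⟨j, hj, List.mem_map.2 ⟨I, hI, rfl⟩⟩
      refine ⟨?_, ?_, hscale j c g3, by simpa using hok1 _ hmem, ?_⟩
      · exact (Homeomorph.mulLeft₀ (ff x j) (hf0 j).ne').isClosedMap _ g1
      · exact g2.image _ (by fun_prop)
      · intro y hy1 hy2
        refine ⟨y / ff x j, g5 _ ?_ ?_, by have := (hf0 j).ne'; field_simp⟩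
        · have h1 := prod_hi (D := D) (a := fu D xu j) (b := I.1) (u := ff x j)
            (v := (I.1 : ℝ) / D) hD (hf0 j).le (by positivity) (hup j)
            (by rw [div_mul_cancel₀ _ hD'.ne'])
          have h2 : ff x j * I.1 ≤ y * D := by
            refine le_trans (le_of_eq ?_) (h1.trans hy1)
            field_simp
          rw [div_mul_eq_mul_div, le_div_iff₀ (hf0 j)]
          linarith
        · have h1 := prod_lo (D := D) (a := fl D xl j) (b := I.2) (u := ff x j)
            (v := (I.2 : ℝ) / D) hD (hf0 j).le (by positivity) (hlo j)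
            (by rw [div_mul_cancel₀ _ hD'.ne'])
          have h2 : y * D ≤ ff x j * I.2 := by
            refine le_trans (hy2.trans h1) (le_of_eq ?_)
            field_simp
          rw [div_mul_eq_mul_div, div_le_iff₀ (hf0 j)]
          linarith
    · refine f2_map _ _ hC ?_
      rintro c I hI ⟨g1, g2, g3, g4, g5⟩
      have hmem : (fu D xu J * I.1 / D + 1, (D * D / (D - xl)) * I.2 / D) ∈
          rawI D xl xu J L := by
        rw [rawI, List.mem_append]
        right
        exact List.mem_map.2 ⟨I, hI, rfl⟩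
      have g4' : (I.1 : ℝ) ≤ I.2 := by exact_mod_cast g4
      have ha : (I.1 : ℝ) / D ∈ c :=
        g5 _ (by rw [div_mul_cancel₀ _ hD'.ne']) (by rw [div_mul_cancel₀ _ hD'.ne']; exact g4')
      have hb : (I.2 : ℝ) / D ∈ c :=
        g5 _ (by rw [div_mul_cancel₀ _ hD'.ne']; exact g4') (by rw [div_mul_cancel₀ _ hD'.ne'])
      have hcheck : ff x (J + 1) * I.1 ≤ ff x J * I.2 := by
        have h1 := hok2 I hI
        rw [Nat.ble_eq] at h1
        have h2 : (fu D xu (J + 1) : ℝ) * I.1 ≤ fl D xl J * I.2 := by exact_mod_cast h1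
        have h3 : ff x (J + 1) * D * I.1 ≤ fu D xu (J + 1) * I.1 := by
          have := hup (J + 1)
          gcongr
        have h4 : (fl D xl J : ℝ) * I.2 ≤ ff x J * D * I.2 := by
          have := hlo J
          gcongr
        have h5 : (ff x (J + 1) * I.1) * D ≤ (ff x J * I.2) * D := by linarith
        exact le_of_mul_le_mul_right h5 hD'
      have hU : IsPreconnected (⋃ n : ℕ, (fun y => ff x (J + n) * y) '' c) := by
        apply IsPreconnected.iUnion_of_chain
        · intro n
          exact g2.image _ (by fun_prop)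
        · intro n
          refine ⟨ff x (J + (n + 1)) * ((I.1 : ℝ) / D), ?_, ⟨_, ha, rfl⟩⟩
          refine ⟨ff x (J + (n + 1)) * ((I.1 : ℝ) / D) / ff x (J + n), g5 _ ?_ ?_, ?_⟩
          · have h1 : ff x (J + n) ≤ ff x (J + (n + 1)) := ff_mono hx0.le (by omega)
            have h2 : ff x (J + (n + 1)) * ((I.1 : ℝ) / D) / ff x (J + n) * D =
                ff x (J + (n + 1)) * I.1 / ff x (J + n) := by field_simp
            rw [h2, le_div_iff₀ (hf0 _), mul_comm]
            gcongr
          · have h2 : ff x (J + (n + 1)) * ((I.1 : ℝ) / D) / ff x (J + n) * D =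
                ff x (J + (n + 1)) * I.1 / ff x (J + n) := by field_simp
            rw [h2, div_le_iff₀ (hf0 _)]
            have h3 := ff_ratio hx0.le J (J + n) (by omega)
            have h4 : (ff x (J + (n + 1)) * I.1) * ff x J ≤ (I.2 * ff x (J + n)) * ff x J := by
              calc (ff x (J + (n + 1)) * I.1) * ff x J
                  = (ff x (J + n + 1) * ff x J) * I.1 := by rw [add_assoc]; ring
                _ ≤ (ff x (J + 1) * ff x (J + n)) * I.1 := by gcongr
                _ = (ff x (J + 1) * I.1) * ff x (J + n) := by ring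
                _ ≤ (ff x J * I.2) * ff x (J + n) := by
                    have := hf0 (J + n)
                    gcongr
                _ = _ := by ring
            exact le_of_mul_le_mul_right h4 (hf0 J)
          · have := (hf0 (J + n)).ne'
            simp only
            field_simp
      have hUc := hU.closure
      refine ⟨isClosed_closure, hUc, ?_, by simpa using hok1 _ hmem, ?_⟩
      · refine closure_minimal (Set.iUnion_subset fun n => hscale (J + n) c g3) isClosed_closure
      · intro y hy1 hy2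
        have hlow : ff x J * ((I.1 : ℝ) / D) ∈
            closure (⋃ n : ℕ, (fun y => ff x (J + n) * y) '' c) :=
          subset_closure (Set.mem_iUnion.2 ⟨0, ⟨_, ha, by simp⟩⟩)
        have hhigh : 1 / (1 - x) * ((I.2 : ℝ) / D) ∈
            closure (⋃ n : ℕ, (fun y => ff x (J + n) * y) '' c) := by
          have ht : Filter.Tendsto (fun n : ℕ => ff x (J + n) * ((I.2 : ℝ) / D)) Filter.atTop
              (nhds (1 / (1 - x) * ((I.2 : ℝ) / D))) := by
            refine Filter.Tendsto.mul_const _ ?_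
            have h1 := (Filter.tendsto_add_atTop_iff_nat (f := ff x) J).2 (ff_tendsto hx0.le hx1)
            refine h1.congr fun n => by rw [add_comm]
          exact mem_closure_of_tendsto ht (Filter.Eventually.of_forall fun n =>
            Set.mem_iUnion.2 ⟨n, ⟨_, hb, rfl⟩⟩)
        refine hUc.ordConnected.out hlow hhigh ⟨?_, ?_⟩
        · have h1 := prod_hi (D := D) (a := fu D xu J) (b := I.1) (u := ff x J)
            (v := (I.1 : ℝ) / D) hD (hf0 J).le (by positivity) (hup J)
            (by rw [div_mul_cancel₀ _ hD'.ne'])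
          exact le_of_mul_le_mul_right (h1.trans hy1) hD'
        · have h1 := prod_lo (D := D) (a := D * D / (D - xl)) (b := I.2) (u := 1 / (1 - x))
            (v := (I.2 : ℝ) / D) hD hinf0 (by positivity) hinf
            (by rw [div_mul_cancel₀ _ hD'.ne'])
          exact le_of_mul_le_mul_right (hy2.trans h1) hD'
  · intro y hy
    obtain ⟨j, z, hz, rfl⟩ := (B_step r hp F hF hpF y).1 hy
    obtain ⟨c, hc, hzc⟩ := hcov z hz
    by_cases hj : j < J
    · refine ⟨(fun y => ff x j * y) '' c, ?_, ⟨z, hzc, rfl⟩⟩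
      rw [List.mem_append]
      left
      rw [List.mem_flatMap]
      exact ⟨j, List.mem_range.2 hj, List.mem_map.2 ⟨c, hc, rfl⟩⟩
    · refine ⟨closure (⋃ n : ℕ, (fun y => ff x (J + n) * y) '' c), ?_, ?_⟩
      · rw [List.mem_append]
        right
        exact List.mem_map.2 ⟨c, hc, rfl⟩
      · apply subset_closure
        refine Set.mem_iUnion.2 ⟨j - J, ⟨z, hzc, ?_⟩⟩
        have : J + (j - J) = j := by omega
        simp only [this]
        rfl

end Pool.Agent.V1114.DC
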